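import Pool.Agent.Lib.MP_c9a594_an.Words
import Pool.Agent.Lib.MP_c9a594_an.Tame
import Pool.Agent.Shared.SubspaceAlg.Main

/-! Irrational numbers of linear complexity are transcendental (Adamczewski and Bugeaud). -/

open Filter

namespace Pool.Agent.Lib.MP_c9a594_an.AI

open Pool.Agent.Subspace Pool.Agent.Shared.SubspaceAlg Real

/-- The Subspace Theorem for an algebraic combination of powers of `b` close to an integer. -/
lemma exists_rel (b : ℕ) (hb : 2 ≤ b) {N : ℕ} (c : Fin N → ℝ) (hc : ∀ i, IsAlgebraic ℚ (c i))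
    (U : Ultrafilter ℕ) (hU : (U : Filter ℕ) ≤ atTop) (C : ℝ) (e : ℕ → Fin N → ℕ) (p : ℕ → ℤ)
    (h : ∀ᶠ n : ℕ in U, (∀ i, (e n i : ℝ) ≤ C * n) ∧
      |∑ i, c i * (b : ℝ) ^ e n i - p n| ≤ ((b : ℝ) ^ n)⁻¹) :
    ∃ (z0 : ℚ) (z : Fin N → ℚ), (z0 = 0 → z ≠ 0) ∧
      ∀ᶠ n : ℕ in U, (z0 : ℝ) * p n + ∑ i, (z i : ℝ) * (b : ℝ) ^ e n i = 0 := by
  have hb0 : b ≠ 0 := by omega
  have hb1 : (1 : ℝ) < b := by exact_mod_cast hb
  have hl : 0 < log (b : ℝ) := log_pos hb1
  have hS : ∀ p ∈ b.primeFactors, p.Prime := fun p => Nat.prime_of_mem_primeFactors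
  have hsum := sum_log_plAbs (hS := hS) hb0 fun p hp h => Nat.mem_primeFactors.2 ⟨hp, h, hb0⟩
  have habs : ∀ v, |log (plAbs b.primeFactors hS v b)| ≤ log b := fun v => by
    simpa using abs_log_plAbs_le (hS := hS) v (z := b) (by exact_mod_cast hb0)
  have hpow : ∀ v (k : ℕ), plAbs b.primeFactors hS v ((b : ℚ) ^ k) =
      exp (k * log (plAbs b.primeFactors hS v b)) := fun v k => by
    rw [map_pow, exp_nat_mul, exp_log ((plAbs _ hS v).pos (by exact_mod_cast hb0))]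
  let L0 : Matrix (Fin (N + 1)) (Fin (N + 1)) ℝ := Matrix.of fun i j =>
    if i = 0 then Fin.cons (α := fun _ => ℝ) (-1) c j else if i = j then 1 else 0
  obtain ⟨ζ, hζ, hr⟩ := subspace_alg b.primeFactors hS (N + 1) L0
    (fun i j => by
      simp only [L0, Matrix.of_apply]
      split_ifs
      · exact j.cases isAlgebraic_one.neg hc
      · exact isAlgebraic_one
      · exact isAlgebraic_zero)
    (by
      rw [Matrix.det_of_isUpperTriangular (M := L0) fun i j (hij : j < i) => by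
        simp only [L0, Matrix.of_apply]
        rw [if_neg (lt_of_le_of_lt (Fin.zero_le j) hij).ne', if_neg hij.ne']]
      simp [L0])
    (fun _ => 1) (fun _ => by simp) U (fun n => n) (tendsto_natCast_atTop_atTop.mono_left hU)
    ((|C| + 1) * log b) (log b) hl (fun n => Fin.cons (p n) fun i => (b : ℤ) ^ e n i)
    (fun n v => Fin.cons (if v = none then -(n * log b) else 0)
      fun i => e n i * log (plAbs b.primeFactors hS v b)) (h.mono fun n hn => by
      have hn0 : (0 : ℝ) ≤ n := Nat.cast_nonneg n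
      have hC := abs_nonneg C
      have hnl : 0 ≤ n * log b := by positivity
      refine ⟨fun v => Fin.forall_fin_succ.2 ⟨?_, fun i => ?_⟩, ?_,
        Fin.forall_fin_succ.2 ⟨?_, fun i => ?_⟩, fun q => Fin.forall_fin_succ.2 ⟨?_, fun i => ?_⟩⟩
      · rw [Fin.cons_zero]
        split_ifs
        · rw [abs_neg, abs_of_nonneg hnl]; nlinarith [mul_nonneg hC hnl]
        · rw [abs_zero]; positivity
      · rw [Fin.cons_succ, abs_mul, Nat.abs_cast, mul_right_comm]
        refine mul_le_mul ((hn.1 i).trans ?_) (habs v) (abs_nonneg _) (by positivity)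
        nlinarith [le_abs_self C]
      · simp only [Fin.sum_univ_succ, Fin.cons_zero, Fin.cons_succ, Finset.sum_add_distrib]
        rw [Finset.sum_comm]
        simp only [← Finset.mul_sum, hsum]
        simp [mul_comm]
      · rw [Fin.cons_zero, if_pos rfl, exp_neg, exp_nat_mul, exp_log (by linarith)]
        convert hn.2 using 2
        simp [L0, Matrix.mulVec, dotProduct, Fin.sum_univ_succ]
        ring
      · rw [Fin.cons_succ, ← hpow, plAbs_none]
        simp [L0, Matrix.mulVec, dotProduct]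
      · rw [Matrix.one_mulVec, Fin.cons_zero, Fin.cons_zero, if_neg (by simp), exp_zero,
          plAbs_some]
        have : Fact (q : ℕ).Prime := ⟨hS q q.2⟩
        exact_mod_cast padicNorm.of_int (p n)
      · rw [Matrix.one_mulVec, Fin.cons_succ, Fin.cons_succ, ← hpow]
        simp)
  refine ⟨ζ 0, fun i => ζ i.succ, fun h0 h1 => hζ (funext fun i => i.cases h0 (congrFun h1)),
    hr.mono fun n hn => ?_⟩
  simp only [dotProduct, Fin.sum_univ_succ, Fin.cons_zero, Fin.cons_succ] at hn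
  exact_mod_cast hn

/-- Low complexity gives an early repetition. -/
lemma exists_repeat (b : ℕ) (hb : 2 ≤ b) (y : ℝ) (n : ℕ) : ∃ (r s : ℕ) (p : ℤ), 0 < s ∧
    r + s ≤ cx b y n ∧ |y * (b : ℝ) ^ (r + s) - y * (b : ℝ) ^ r - p| ≤ ((b : ℝ) ^ n)⁻¹ := by
  have hb0 : (0 : ℝ) < (b : ℝ) ^ n := by positivity
  set f : ℕ → ℤ := fun k => ⌊(b : ℝ) ^ n * Int.fract ((b : ℝ) ^ k * y)⌋ with hf
  have hfin : {z : ℤ | ∃ k : ℕ, z = f k}.Finite := (Set.finite_Icc 0 ⌊(b : ℝ) ^ n⌋).subset (by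
    rintro _ ⟨k, rfl⟩
    exact ⟨Int.floor_nonneg.2 (mul_nonneg hb0.le (Int.fract_nonneg _)),
      Int.floor_le_floor (mul_le_of_le_one_right hb0.le (Int.fract_lt_one _).le)⟩)
  obtain ⟨i, hi, j, hj, hij, h⟩ := Finset.exists_ne_map_eq_of_card_lt_of_maps_to
    (s := Finset.range (cx b y n + 1)) (t := hfin.toFinset) (f := f)
    (by rw [Finset.card_range, ← Set.ncard_eq_toFinset_card _ hfin]; exact Nat.lt_succ_self _)
    fun k _ => by simp
  wlog hlt : i < j generalizing i j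
  · exact this j hj i hi hij.symm h.symm (by omega)
  obtain ⟨s, rfl⟩ := Nat.exists_eq_add_of_le hlt.le
  refine ⟨i, s, ⌊(b : ℝ) ^ (i + s) * y⌋ - ⌊(b : ℝ) ^ i * y⌋, by omega,
    Nat.lt_succ_iff.1 (Finset.mem_range.1 hj), ?_⟩
  have h1 := Int.abs_sub_lt_one_of_floor_eq_floor h.symm
  rw [← mul_sub, abs_mul, abs_of_pos hb0, ← lt_div_iff₀' hb0, one_div] at h1
  refine le_of_eq_of_le (congrArg _ ?_) h1.le
  simp only [Int.fract]
  push_cast
  ring

lemma eq_zero_of_irrational {y : ℝ} (hy : Irrational y) {u v : ℚ} (h : (u : ℝ) * y + v = 0) :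
    u = 0 := by
  by_contra hu
  exact ((hy.ratCast_mul hu).add_ratCast v).ne_zero h

theorem transcendental_of_linear (b : ℕ) (hb : 2 ≤ b) (y : ℝ) (hy : Irrational y) (C : ℝ)
    (h : ∀ᶠ n : ℕ in atTop, (cx b y n : ℝ) ≤ C * n) : Transcendental ℤ y := by
  intro ha
  have ha' : IsAlgebraic ℚ y := ha.extendScalars (algebraMap ℤ ℚ).injective_int
  have hb1 : (1 : ℝ) < b := by exact_mod_cast hb
  choose r s p hs hrs hp using exists_repeat b hb y
  set U : Ultrafilter ℕ := Ultrafilter.of atTop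
  have hU : (U : Filter ℕ) ≤ atTop := Ultrafilter.of_le _
  have hrs' : ∀ᶠ n : ℕ in U, ((r n + s n : ℕ) : ℝ) ≤ C * n ∧ (r n : ℝ) ≤ C * n :=
    (h.filter_mono hU).mono fun n hn => ⟨le_trans (by exact_mod_cast hrs n) hn,
      le_trans (by exact_mod_cast (Nat.le_add_right _ _).trans (hrs n)) hn⟩
  obtain ⟨z0, z, hz, hrel⟩ := exists_rel b hb ![y, -y] (by simp [Fin.forall_fin_two, ha', ha'.neg])
    U hU C (fun n => ![r n + s n, r n]) p (hrs'.mono fun n hn =>
      ⟨by simpa [Fin.forall_fin_two] using hn, by simpa [sub_eq_add_neg] using hp n⟩)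
  simp only [Fin.sum_univ_two, Matrix.cons_val_zero, Matrix.cons_val_one] at hrel
  have h1 : (z0 : ℝ) * y + z 0 ≠ 0 := fun h0 => by
    have h2 := eq_zero_of_irrational hy h0
    obtain ⟨n, hn⟩ := hrel.exists
    have h3 : z 0 = 0 := by simpa [h2] using h0
    have h4 : z 1 = 0 := by
      have hb0 : b ≠ 0 := by omega
      simpa [h2, h3, hb0] using hn
    exact hz h2 (funext fun i => by fin_cases i <;> simpa)
  obtain ⟨M, hM⟩ := exists_nat_ge ((|(z0 : ℝ)| + |z0 * y - z 1|) / |z0 * y + z 0|)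
  have hsM : ∀ᶠ n : ℕ in U, ∃ t ∈ Set.Iic M, s n = t := hrel.mono fun n hn => by
    refine ⟨s n, ?_, rfl⟩
    have e1 : (1 : ℝ) ≤ (b : ℝ) ^ r n := one_le_pow₀ hb1.le
    have e2 : (b : ℝ) ^ r n * ((b : ℝ) ^ s n * (z0 * y + z 0) - (z0 * y - z 1)) =
        z0 * (y * (b : ℝ) ^ (r n + s n) - y * (b : ℝ) ^ r n - p n) := by
      rw [pow_add] at hn ⊢
      linear_combination hn
    have e3 : |(b : ℝ) ^ s n * (z0 * y + z 0) - (z0 * y - z 1)| ≤ |(z0 : ℝ)| := by
      refine (le_mul_of_one_le_left (abs_nonneg _) e1).trans ?_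
      rw [← abs_of_nonneg (zero_le_one.trans e1), ← abs_mul, e2, abs_mul]
      exact mul_le_of_le_one_right (abs_nonneg _)
        ((hp n).trans (inv_le_one_of_one_le₀ (one_le_pow₀ hb1.le)))
    have e4 := abs_sub_abs_le_abs_sub ((b : ℝ) ^ s n * (z0 * y + z 0)) (z0 * y - z 1)
    rw [abs_mul, abs_of_pos (by positivity)] at e4
    have e5 : (b : ℝ) ^ s n ≤ M :=
      le_trans ((le_div_iff₀ (abs_pos.2 h1)).2 (by linarith)) hM
    have e6 : b ^ s n ≤ M := by exact_mod_cast e5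
    exact (Nat.lt_pow_self (by omega)).le.trans e6
  obtain ⟨t, -, ht⟩ := (Ultrafilter.eventually_exists_mem_iff (Set.finite_Iic M)).1 hsM
  have ht0 : 0 < t := by
    obtain ⟨n, hn⟩ := ht.exists
    exact hn ▸ hs n
  have hq : ((b : ℚ) ^ t - 1 : ℚ) ≠ 0 :=
    sub_ne_zero.2 (one_lt_pow₀ (by exact_mod_cast hb) ht0.ne').ne'
  set y' : ℝ := ((b : ℚ) ^ t - 1 : ℚ) * y with hy'
  have hp' : ∀ᶠ n : ℕ in U, |y' * (b : ℝ) ^ r n - p n| ≤ ((b : ℝ) ^ n)⁻¹ := ht.mono fun n hn => by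
    convert hp n using 2
    rw [hy', pow_add, hn]
    push_cast
    ring
  obtain ⟨w0, w, hw, hrel'⟩ := exists_rel b hb ![y']
    (by simpa [hy'] using (isAlgebraic_algebraMap ((b : ℚ) ^ t - 1)).mul ha') U hU C
    (fun n => ![r n]) p ((hrs'.and hp').mono fun n hn => ⟨by simpa using hn.1.2, by simpa using hn.2⟩)
  simp only [Fin.sum_univ_one, Matrix.cons_val_zero] at hrel'
  have h2 : (w0 : ℝ) * y' + w 0 = 0 := by
    have h3 : Tendsto (fun n : ℕ => |(w0 : ℝ)| * ((b : ℝ) ^ n)⁻¹) U (nhds (|(w0 : ℝ)| * 0)) :=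
      ((tendsto_pow_atTop_atTop_of_one_lt hb1).inv_tendsto_atTop.const_mul _).mono_left hU
    rw [mul_zero] at h3
    refine abs_nonpos_iff.1 (ge_of_tendsto h3 ((hrel'.and hp').mono fun n hn => ?_))
    have e1 : (1 : ℝ) ≤ (b : ℝ) ^ r n := one_le_pow₀ hb1.le
    have e2 : (b : ℝ) ^ r n * (w0 * y' + w 0) = w0 * (y' * (b : ℝ) ^ r n - p n) := by
      linear_combination hn.1
    refine (le_mul_of_one_le_left (abs_nonneg _) e1).trans ?_
    rw [← abs_of_nonneg (zero_le_one.trans e1), ← abs_mul, e2, abs_mul]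
    exact mul_le_mul_of_nonneg_left hn.2 (abs_nonneg _)
  have h3 := eq_zero_of_irrational (hy.ratCast_mul hq) h2
  exact hw h3 (funext fun i => by fin_cases i; simpa [h3] using h2)

end Pool.Agent.Lib.MP_c9a594_an.AI
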