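import Mathlib

/-! Elimination of one variable by a Sylvester determinant. -/

open Polynomial Finset Matrix

namespace Pool.Agent.Lib.MP_c9a594_an.AI

variable {R S : Type} [CommRing R] [CommRing S]

/-- A multiplicative filtration. -/
structure Fil (R : Type) [CommRing R] where
  F : ℕ → ℝ → AddSubgroup R
  one : 1 ∈ F 0 0
  mul : ∀ {m m' r r' x y}, x ∈ F m r → y ∈ F m' r' → x * y ∈ F (m + m') (r + r')
  mono : ∀ {m m' r r' x}, m ≤ m' → r ≤ r' → x ∈ F m r → x ∈ F m' r'

lemma Fil.prod (Φ : Fil R) {ι : Type} (s : Finset ι) {f : ι → R} {m : ℕ} {r : ι → ℝ}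
    (h : ∀ i ∈ s, f i ∈ Φ.F m (r i)) : ∏ i ∈ s, f i ∈ Φ.F (s.card * m) (∑ i ∈ s, r i) := by
  classical
  induction s using Finset.induction_on with
  | empty => simpa using Φ.one
  | insert a s ha ih =>
    rw [prod_insert ha, sum_insert ha, card_insert_of_notMem ha, add_mul, one_mul, add_comm _ m]
    exact Φ.mul (h a (mem_insert_self _ _)) (ih fun i hi => h i (mem_insert_of_mem hi))

lemma Fil.pow (Φ : Fil R) {x : R} {m : ℕ} {r : ℝ} (h : x ∈ Φ.F m r) (n : ℕ) :
    x ^ n ∈ Φ.F (n * m) (n * r) := by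
  simpa using Φ.prod (range n) (f := fun _ => x) (r := fun _ => r) fun _ _ => h

lemma Fil.int (Φ : Fil R) (z : ℤ) : (z : R) ∈ Φ.F 0 0 := by
  simpa using (Φ.F 0 0).zsmul_mem Φ.one z

lemma Fil.det (Φ : Fil R) {ι : Type} [Fintype ι] [DecidableEq ι] {M : Matrix ι ι R} {m : ℕ}
    {α γ : ι → ℝ} (h : ∀ i j, M i j ∈ Φ.F m (α i + γ j)) :
    M.det ∈ Φ.F (Fintype.card ι * m) (∑ i, α i + ∑ i, γ i) := by
  rw [det_apply]
  refine AddSubgroup.sum_mem _ fun σ _ => ?_
  have := Φ.prod univ fun i _ => h (σ i) i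
  rw [sum_add_distrib, Equiv.sum_comp σ α] at this
  rcases Int.units_eq_one_or (Equiv.Perm.sign σ) with h | h <;> simpa [h] using this

lemma Fil.det_update (Φ : Fil R) {ι : Type} [Fintype ι] [DecidableEq ι] {M : Matrix ι ι R} {m : ℕ}
    {α : ι → ℝ} (h : ∀ i j, M i j ∈ Φ.F m (α i)) (c : ι) {v : ι → R} {β : ℝ}
    (hv : ∀ i, v i ∈ Φ.F m (α i + β)) :
    (M.updateCol c v).det ∈ Φ.F (Fintype.card ι * m) (∑ i, α i + β) := by
  have := Φ.det (M := M.updateCol c v) (m := m) (α := α) (γ := fun j => if j = c then β else 0)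
    fun i j => by
      rw [updateCol_apply]
      split_ifs
      exacts [hv i, by simpa using h i j]
  simpa using this

/-- The homogenised value of an integer polynomial. -/
lemma Fil.homog {K : Type} [Field K] (Φ : Fil K) {Y δ : K} (hδ : δ ≠ 0) {m : ℕ} {r : ℝ}
    (hY : Y ∈ Φ.F m r) (hδ' : δ ∈ Φ.F m r) {p : ℤ[X]} {n : ℕ} (hp : p.natDegree ≤ n) :
    δ ^ n * aeval (Y / δ) p ∈ Φ.F (n * m) (n * r) := by
  rw [aeval_eq_sum_range' (Nat.lt_succ_of_le hp), mul_sum]
  refine AddSubgroup.sum_mem _ fun i hi => ?_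
  obtain ⟨j, rfl⟩ := Nat.exists_eq_add_of_le (Nat.lt_succ_iff.mp (mem_range.mp hi))
  have e : δ ^ (i + j) * p.coeff i • (Y / δ) ^ i = p.coeff i • (Y ^ i * δ ^ j) := by
    rw [mul_smul_comm, div_pow, pow_add]
    congr 1
    field_simp
  rw [e, add_mul, Nat.cast_add, add_mul]
  exact AddSubgroup.zsmul_mem _ (Φ.mul (Φ.pow hY i) (Φ.pow hδ' j)) _

/-- The rows of the Sylvester matrix. -/
noncomputable def row (e D : ℕ) (P F : R[X]) : Fin e ⊕ Fin D → R[X] :=
  Sum.elim (fun i => X ^ (i : ℕ) * P) fun j => X ^ (j : ℕ) * F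

/-- The Sylvester matrix. -/
noncomputable def syl (e D : ℕ) (P F : R[X]) : Matrix (Fin e ⊕ Fin D) (Fin e ⊕ Fin D) R :=
  of fun r c => (row e D P F r).coeff (finSumFinEquiv c)

variable {e D : ℕ} {P F : R[X]}

lemma map_det_syl (φ : R →+* S) : φ (syl e D P F).det = (syl e D (P.map φ) (F.map φ)).det := by
  rw [RingHom.map_det]
  congr 1
  ext (i | j) c <;> simp [syl, row, coeff_X_pow_mul', apply_ite φ]

lemma syl_mem {A : Fin e ⊕ Fin D → AddSubgroup R} (hP : ∀ i k, P.coeff k ∈ A (.inl i))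
    (hF : ∀ j k, F.coeff k ∈ A (.inr j)) (r c) : syl e D P F r c ∈ A r := by
  rcases r with i | j <;> simp only [syl, row, of_apply, Sum.elim_inl, Sum.elim_inr,
    coeff_X_pow_mul'] <;> split_ifs
  exacts [hP _ _, zero_mem _, hF _ _, zero_mem _]

lemma det_syl_C_mul (c : R) : (syl e D P (C c * F)).det = c ^ D * (syl e D P F).det := by
  have := det_mul_column (Sum.elim (fun _ => 1) fun _ => c) (syl e D P F)
  simp only [Fintype.prod_sum_type, Sum.elim_inl, Sum.elim_inr, prod_const, one_pow, one_mul,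
    card_univ, Fintype.card_fin] at this
  rw [← this]
  congr 1
  ext (i | j) k
  · simp [syl, row]
  · simp only [syl, row, of_apply, Sum.elim_inr]
    rw [mul_left_comm, coeff_C_mul]

lemma natDegree_row (hP : P.natDegree ≤ D) (hF : F.natDegree ≤ e) (r) :
    (row e D P F r).natDegree < e + D := by
  rcases r with i | j
  · have := natDegree_mul_le (p := X ^ (i : ℕ)) (q := P)
    have h := natDegree_X_pow_le (R := R) i
    have := i.2
    simp only [row, Sum.elim_inl]
    omega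
  · have := natDegree_mul_le (p := X ^ (j : ℕ)) (q := F)
    have h := natDegree_X_pow_le (R := R) j
    have := j.2
    simp only [row, Sum.elim_inr]
    omega

lemma det_split (hP : P.natDegree ≤ D) (hF : F.natDegree ≤ e) (hD : 0 < D) (x u : R) :
    ∃ c, u * (syl e D P F).det =
      ((syl e D P F).updateCol c (Sum.elim (fun i => u * (x ^ (i : ℕ) * P.eval x)) 0)).det +
      ((syl e D P F).updateCol c (Sum.elim 0 fun j => u * (x ^ (j : ℕ) * F.eval x))).det := by
  refine ⟨finSumFinEquiv.symm ⟨0, by omega⟩, ?_⟩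
  have h := det_updateCol_sum (syl e D P F) (finSumFinEquiv.symm ⟨0, by omega⟩)
    fun c => u * x ^ (finSumFinEquiv c : ℕ)
  rw [Equiv.apply_symm_apply, pow_zero, mul_one, smul_eq_mul] at h
  rw [← h, ← det_updateCol_add]
  congr 2
  funext r
  have h1 : ∑ c, (u * x ^ (finSumFinEquiv c : ℕ)) • syl e D P F r c =
      u * (row e D P F r).eval x := by
    rw [eval_eq_sum_range' (natDegree_row hP hF r), ← Fin.sum_univ_eq_sum_range
      (fun i => (row e D P F r).coeff i * x ^ i), ← Equiv.sum_comp finSumFinEquiv, mul_sum]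
    exact sum_congr rfl fun c _ => by simp only [syl, of_apply, smul_eq_mul]; ring
  rw [h1]
  rcases r with i | j <;> simp [row]

lemma eq_zero_of_sum {n : ℕ} {v : Fin n → R} (h : ∑ i, C (v i) * X ^ (i : ℕ) = 0) (i : Fin n) :
    v i = 0 := by
  have := congrArg (coeff · i) h
  simpa [finsetSum_coeff, coeff_X_pow, Fin.val_inj] using this

lemma det_syl_ne_zero [IsDomain R] [IsDomain S] (hP : P.natDegree ≤ D) (hF : F.natDegree ≤ e)
    (ev : R[X] →+* S) (h0 : F ≠ 0) (h1 : ev F = 0) (h2 : ev P ≠ 0)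
    (hmin : ∀ A : R[X], A.degree < e → ev A = 0 → A = 0) : (syl e D P F).det ≠ 0 := by
  classical
  intro h
  obtain ⟨v, hv0, hv⟩ := exists_vecMul_eq_zero_iff.mpr h
  have h3 : ∑ r, C (v r) * row e D P F r = 0 := by
    ext n
    rw [finsetSum_coeff, coeff_zero]
    by_cases hn : n < e + D
    · have := congrFun hv (finSumFinEquiv.symm ⟨n, hn⟩)
      simpa [vecMul, dotProduct, syl] using this
    · exact sum_eq_zero fun r _ => by
        rw [coeff_C_mul, coeff_eq_zero_of_natDegree_lt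
          ((natDegree_row hP hF r).trans_le (not_lt.mp hn)), mul_zero]
  simp only [Fintype.sum_sum_type, row, Sum.elim_inl, Sum.elim_inr, ← mul_assoc, ← sum_mul] at h3
  have h4 := congrArg ev h3
  rw [map_add, map_mul, map_mul, h1, mul_zero, add_zero, map_zero] at h4
  have h5 := hmin _ (degree_sum_fin_lt _) ((mul_eq_zero.mp h4).resolve_right h2)
  rw [h5, zero_mul, zero_add] at h3
  refine hv0 (funext ?_)
  rintro (i | j)
  exacts [eq_zero_of_sum h5 i, eq_zero_of_sum ((mul_eq_zero.mp h3).resolve_right h0) j]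

/-- Evaluation of an integer polynomial in two variables. -/
noncomputable def ev2 (y x : R) : ℤ[X][X] →+* R := eval₂RingHom (aeval y).toRingHom x

lemma ev2_X (y x : R) : ev2 y x X = x := eval₂_X _ _

lemma ev2_C (y x : R) (p : ℤ[X]) : ev2 y x (C p) = aeval y p := eval₂_C _ _

lemma hom_ev2 (φ : R →+* S) (y x : R) (G : ℤ[X][X]) : φ (ev2 y x G) = ev2 (φ y) (φ x) G := by
  simp only [ev2, coe_eval₂RingHom, hom_eval₂]
  congr 1
  ext <;> simp

end Pool.Agent.Lib.MP_c9a594_an.AI
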