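import Pool.Agent.Lib.MP_c9a594_an.AI.Sep
import Pool.Agent.Lib.MP_c9a594_an.AI.Elim

/-! The filtrations used in the elimination. -/

open Filter Topology Real Finset Polynomial Pool.Agent.Subspace

namespace Pool.Agent.Lib.MP_c9a594_an.AI

section pol

variable {R S : Type} [CommRing R] [CommRing S] {n : ℕ}

/-- The polynomial with given coefficients. -/
noncomputable def pol (v : Fin n → R) : R[X] := ∑ i, C (v i) * X ^ (i : ℕ)

lemma map_pol (φ : R →+* S) (v : Fin n → R) : (pol v).map φ = pol fun i => φ (v i) := by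
  simp [pol, Polynomial.map_sum]

lemma natDegree_pol (v : Fin (n + 1) → R) : (pol v).natDegree ≤ n :=
  natDegree_sum_le_of_forall_le _ _ fun i _ =>
    (natDegree_C_mul_X_pow_le _ _).trans (Nat.lt_succ_iff.mp i.2)

lemma coeff_pol_mem {v : Fin n → R} {A : AddSubgroup R} (h : ∀ i, v i ∈ A) (k : ℕ) :
    (pol v).coeff k ∈ A := by
  rw [pol, finsetSum_coeff]
  refine A.sum_mem fun i _ => ?_
  rw [coeff_C_mul_X_pow]
  split_ifs
  exacts [h i, zero_mem _]

lemma eval_pol (v : Fin n → R) (x : R) : (pol v).eval x = ∑ i, v i * x ^ (i : ℕ) := by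
  simp [pol, eval_finsetSum]

lemma pow_mul_div_pow {K : Type} [Field K] {δ : K} (h : δ ≠ 0) (x : K) {i n : ℕ} (hi : i ≤ n) :
    δ ^ n * (x / δ) ^ i = x ^ i * δ ^ (n - i) := by
  obtain ⟨j, rfl⟩ := Nat.exists_eq_add_of_le hi
  rw [Nat.add_sub_cancel_left, div_pow, pow_add]
  field_simp

end pol

variable {U : Ultrafilter ℕ} {q : ℕ → ℝ}

/-- Real sequences of bounded growth rate. -/
def smR (hq : Tendsto q U atTop) : Fil (ℕ → ℝ) where
  F _ r :=
    { carrier := {f | ∀ ε > 0, ∀ᶠ k in U, |f k| ≤ exp ((r + ε) * q k)}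
      zero_mem' := fun ε _ => Eventually.of_forall fun k => by simp [(exp_pos _).le]
      add_mem' := by
        intro f g hf hg ε hε
        filter_upwards [hf (ε / 2) (by positivity), hg (ε / 2) (by positivity),
          (hq.const_mul_atTop (r := ε / 2) (by positivity)).eventually_ge_atTop 1] with k h2 h3 h4
        rw [Pi.add_apply, show (r + ε) * q k = ε / 2 * q k + (r + ε / 2) * q k by ring, exp_add]
        have := add_one_le_exp (ε / 2 * q k)
        nlinarith [abs_add_le (f k) (g k), exp_pos ((r + ε / 2) * q k)]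
      neg_mem' := fun hf ε hε => (hf ε hε).mono fun k hk => by simpa using hk }
  one ε hε := (hq.eventually_ge_atTop 0).mono fun k hk => by
    simpa using mul_nonneg hε.le hk
  mul := by
    intro _ _ r r' f g hf hg ε hε
    filter_upwards [hf (ε / 2) (by positivity), hg (ε / 2) (by positivity)] with k h1 h2
    rw [Pi.mul_apply, abs_mul,
      show (r + r' + ε) * q k = (r + ε / 2) * q k + (r' + ε / 2) * q k by ring, exp_add]
    exact mul_le_mul h1 h2 (abs_nonneg _) (exp_pos _).le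
  mono := by
    intro _ _ r r' f _ h hf ε hε
    filter_upwards [hf ε hε, hq.eventually_ge_atTop 0] with k h1 h2
    exact h1.trans (exp_le_exp.mpr (by nlinarith))

variable {hq : Tendsto q U atTop}

lemma smR_of_le {f : ℕ → ℝ} {r : ℝ} (h : ∀ᶠ k in U, |f k| ≤ exp (r * q k)) :
    f ∈ (smR hq).F 0 r := fun ε hε => by
  filter_upwards [h, hq.eventually_ge_atTop 0] with k h1 h2
  exact h1.trans (exp_le_exp.mpr (by nlinarith))

lemma smR_const (x : ℝ) : (fun _ => x) ∈ (smR hq).F 0 0 := fun ε hε =>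
  ((hq.const_mul_atTop hε).eventually_ge_atTop |x|).mono fun k hk => by
    rw [zero_add]
    linarith [add_one_le_exp (ε * q k)]

/-- Rational sequences as real sequences. -/
noncomputable def cR : (ℕ → ℚ) →+* (ℕ → ℝ) := (Rat.castHom ℝ).compLeft ℕ

lemma germ_small {f : ℕ → ℚ} {r : ℝ} : germ U f ∈ small hq r ↔ cR f ∈ (smR hq).F 0 r :=
  ⟨fun h => h f rfl, fun h g hg ε hε => by
    filter_upwards [h ε hε, germ_eq.mp hg] with k h1 h2
    rwa [← h2]⟩

/-- Elements of the ultrapower of bounded growth rate. -/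
noncomputable def smK (hq : Tendsto q U atTop) : Fil (UP U) where
  F _ r := (small hq r).toAddSubgroup
  one := by
    change 1 ∈ small hq 0
    rw [← map_one (germ U), germ_small, map_one]
    exact (smR hq).one
  mul := by
    intro _ _ r r' x y hx hy
    obtain ⟨f, rfl⟩ := germ_surj x
    obtain ⟨g, rfl⟩ := germ_surj y
    change _ ∈ small hq _
    rw [← map_mul, germ_small, map_mul]
    exact (smR hq).mul (germ_small.mp hx) (germ_small.mp hy)
  mono := by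
    intro _ _ r r' x _ h hx
    obtain ⟨f, rfl⟩ := germ_surj x
    exact germ_small.mpr ((smR hq).mono le_rfl h (germ_small.mp hx))

lemma inv_small {f : ℕ → ℤ} (h : ∀ᶠ k in U, f k ≠ 0) :
    (germ U fun k => f k)⁻¹ ∈ (smK hq).F 0 0 := by
  rw [← germ_inv]
  refine (germ_small (hq := hq)).mpr (smR_of_le (h.mono fun k hk => ?_))
  have : (1 : ℝ) ≤ |(f k : ℝ)| := by exact_mod_cast Int.one_le_abs hk
  simpa [cR] using inv_le_one_of_one_le₀ this

/-- Integer sequences as real sequences. -/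
def zR : (ℕ → ℤ) →+* (ℕ → ℝ) := (Int.castRingHom ℝ).compLeft ℕ

/-- Polynomials of bounded degree with coefficients of bounded growth rate. -/
noncomputable def smP (hq : Tendsto q U atTop) : Fil (ℕ → ℤ)[X] where
  F m r :=
    { carrier := {p | p.natDegree ≤ m ∧ ∀ i, zR (p.coeff i) ∈ (smR hq).F 0 r}
      zero_mem' := ⟨by simp, fun i => by simp⟩
      add_mem' := fun hp hp' => ⟨natDegree_add_le_of_degree_le hp.1 hp'.1, fun i => by
        rw [coeff_add, map_add]; exact add_mem (hp.2 i) (hp'.2 i)⟩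
      neg_mem' := fun hp => ⟨by rw [natDegree_neg]; exact hp.1, fun i => by
        rw [coeff_neg, map_neg]; exact neg_mem (hp.2 i)⟩ }
  one := ⟨by simp, fun i => by
    rw [coeff_one]
    split_ifs
    · rw [map_one]; exact (smR hq).one
    · simp⟩
  mul hp hp' := ⟨natDegree_mul_le.trans (add_le_add hp.1 hp'.1), fun i => by
    rw [coeff_mul, map_sum]
    exact AddSubgroup.sum_mem _ fun c _ => by
      rw [map_mul]; exact (smR hq).mul (hp.2 _) (hp'.2 _)⟩
  mono h h' hp := ⟨hp.1.trans h, fun i => (smR hq).mono le_rfl h' (hp.2 i)⟩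

/-- Pairs of sequences of subexponential growth that are close to each other. -/
def near (hq : Tendsto q U atTop) (s : ℝ) : Subring ((ℕ → ℝ) × (ℕ → ℝ)) where
  carrier := {p | p.1 ∈ (smR hq).F 0 0 ∧ p.2 ∈ (smR hq).F 0 0 ∧ p.1 - p.2 ∈ (smR hq).F 0 s}
  zero_mem' := ⟨zero_mem _, zero_mem _, by simp⟩
  one_mem' := ⟨(smR hq).one, (smR hq).one, by simp⟩
  add_mem' h h' := ⟨add_mem h.1 h'.1, add_mem h.2.1 h'.2.1, by
    rw [Prod.fst_add, Prod.snd_add, add_sub_add_comm]; exact add_mem h.2.2 h'.2.2⟩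
  neg_mem' h := ⟨neg_mem h.1, neg_mem h.2.1, by
    rw [Prod.fst_neg, Prod.snd_neg, neg_sub_neg, ← neg_sub]; exact neg_mem h.2.2⟩
  mul_mem' := by
    intro x y h h'
    refine ⟨by simpa using (smR hq).mul h.1 h'.1, by simpa using (smR hq).mul h.2.1 h'.2.1, ?_⟩
    rw [Prod.fst_mul, Prod.snd_mul,
      show x.1 * y.1 - x.2 * y.2 = x.1 * (y.1 - y.2) + y.2 * (x.1 - x.2) by ring]
    exact add_mem (by simpa using (smR hq).mul h.1 h'.2.2)
      (by simpa using (smR hq).mul h'.2.1 h.2.2)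

lemma near_ev2 {s : ℝ} {x y : (ℕ → ℝ) × (ℕ → ℝ)} (hx : x ∈ near hq s) (hy : y ∈ near hq s)
    (F : ℤ[X][X]) : ev2 y.1 x.1 F - ev2 y.2 x.2 F ∈ (smR hq).F 0 s := by
  have h := (ev2 (⟨y, hy⟩ : near hq s) ⟨x, hx⟩ F).2.2.2
  have h1 := hom_ev2 ((RingHom.fst _ _).comp (near hq s).subtype) ⟨y, hy⟩ ⟨x, hx⟩ F
  have h2 := hom_ev2 ((RingHom.snd _ _).comp (near hq s).subtype) ⟨y, hy⟩ ⟨x, hx⟩ F
  exact h1 ▸ h2 ▸ h

lemma near_eval {s r : ℝ} {y : (ℕ → ℝ) × (ℕ → ℝ)} (hy : y ∈ near hq s) {m : ℕ}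
    {p : (ℕ → ℤ)[X]} (hp : p ∈ (smP hq).F m r) :
    p.eval₂ zR y.1 - p.eval₂ zR y.2 ∈ (smR hq).F 0 (r + s) := by
  rw [eval₂_eq_sum_range, eval₂_eq_sum_range, ← sum_sub_distrib]
  refine AddSubgroup.sum_mem _ fun i _ => ?_
  rw [← mul_sub]
  exact (smR hq).mul (hp.2 i) (pow_mem hy i).2.2

lemma near_div {x K : ℝ} (hK : 0 ≤ K) {d : ℕ → ℤ} {f : ℕ → ℚ} (hd : ∀ᶠ k in U, d k ≠ 0)
    (h : ∀ᶠ k in U, |d k * x - f k| ≤ exp (-K * q k)) :
    (cR (f / fun k => (d k : ℚ)), fun _ => x) ∈ near hq (-K) := by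
  have h1 : (cR (f / fun k => (d k : ℚ)) - fun _ => x) ∈ (smR hq).F 0 (-K) := by
    refine smR_of_le ?_
    filter_upwards [hd, h] with k h1 h2
    have h3 : (1 : ℝ) ≤ |(d k : ℝ)| := by exact_mod_cast Int.one_le_abs h1
    have h4 : (d k : ℝ) ≠ 0 := by exact_mod_cast h1
    have e : (cR (f / fun k => (d k : ℚ)) - fun _ => x : ℕ → ℝ) k =
        -(d k * x - f k) / d k := by
      simp [cR]; field_simp
    rw [e, abs_div, abs_neg]
    exact (div_le_self (abs_nonneg _) h3).trans h2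
  refine ⟨?_, smR_const x, h1⟩
  simpa using add_mem ((smR hq).mono le_rfl (neg_nonpos.mpr hK) h1) (smR_const (hq := hq) x)

variable (U q) in
/-- The exponent sequence `γ` has rates `ξ` and `η`. -/
def Rate (γ : ℕ → ℤ × ℤ) (ξ η : ℝ) : Prop :=
  Tendsto (fun k => ((γ k).1 : ℝ) / q k) U (𝓝 ξ) ∧ Tendsto (fun k => ((γ k).2 : ℝ) / q k) U (𝓝 η)

lemma Rate.zero : Rate U q 0 0 0 := by simp [Rate]

lemma Rate.add {γ γ' : ℕ → ℤ × ℤ} {ξ η ξ' η' : ℝ} (h : Rate U q γ ξ η) (h' : Rate U q γ' ξ' η') :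
    Rate U q (γ + γ') (ξ + ξ') (η + η') :=
  ⟨by simpa [add_div] using h.1.add h'.1, by simpa [add_div] using h.2.add h'.2⟩

lemma Rate.nsmul {γ : ℕ → ℤ × ℤ} {ξ η : ℝ} (h : Rate U q γ ξ η) (n : ℕ) :
    Rate U q (n • γ) (n * ξ) (n * η) :=
  ⟨by simpa [mul_div_assoc] using h.1.const_mul (n : ℝ),
    by simpa [mul_div_assoc] using h.2.const_mul (n : ℝ)⟩

lemma Rate.sum {T : Type} (s : Finset T) {γ : T → ℕ → ℤ × ℤ} {ξ η : T → ℝ}
    (h : ∀ t, Rate U q (γ t) (ξ t) (η t)) :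
    Rate U q (∑ t ∈ s, γ t) (∑ t ∈ s, ξ t) (∑ t ∈ s, η t) := by
  classical
  induction s using Finset.induction_on with
  | empty => simpa using Rate.zero
  | insert a s ha ih => simpa only [sum_insert ha] using (h a).add ih

variable {a b : ℕ}

lemma gm_sum (ha : a ≠ 0) (hb : b ≠ 0) {T : Type} (s : Finset T) (γ : T → ℕ → ℤ × ℤ) :
    gm U a b (∑ t ∈ s, γ t) = ∏ t ∈ s, gm U a b (γ t) := by
  classical
  induction s using Finset.induction_on with
  | empty => simpa using gm_zero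
  | insert t s ht ih => rw [sum_insert ht, prod_insert ht, gm_add ha hb, ih]

lemma gm_nsmul (ha : a ≠ 0) (hb : b ≠ 0) (n : ℕ) (γ : ℕ → ℤ × ℤ) :
    gm U a b (n • γ) = gm U a b γ ^ n := by
  simpa using gm_sum (U := U) ha hb (range n) fun _ => γ

lemma gm_ne_zero (ha : a ≠ 0) (hb : b ≠ 0) (γ : ℕ → ℤ × ℤ) : gm U a b γ ≠ 0 :=
  left_ne_zero_of_mul_eq_one (b := gm U a b (-γ)) (by rw [← gm_add ha hb, add_neg_cancel, gm_zero])

lemma gm_small (ha : a ≠ 0) (hb : b ≠ 0) {γ : ℕ → ℤ × ℤ} {ξ η : ℝ} (h : Rate U q γ ξ η) :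
    gm U a b γ ∈ (smK hq).F 0 (ξ * log a + η * log b) := by
  refine mem_small (S := ∅) (hS := by simp) hq (mul_ne_zero ha hb)
    (gm_mem ha hb (tame_of_lim hq h.1 h.2)) ?_
  rw [ordU_gm ha hb h.1 h.2, plAbs_none, plAbs_none]
  simp

include hq in
lemma gm_int {γ : ℕ → ℤ × ℤ} {ξ η : ℝ} (h : Rate U q γ ξ η) (hξ : 0 < ξ) (h2 : ∀ k, (γ k).2 = 0) :
    ∃ f : ℕ → ℤ, gm U a b γ = germ U fun k => f k := by
  refine ⟨fun k => a ^ (γ k).1.toNat, germ_eq.mpr ?_⟩
  filter_upwards [h.1.eventually_const_lt hξ, hq.eventually_gt_atTop 0] with k h3 h4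
  have h5 : 0 ≤ (γ k).1 := by exact_mod_cast ((div_pos_iff_of_pos_right h4).mp h3).le
  rw [h2, zpow_zero, mul_one, Int.cast_pow, Int.cast_natCast, ← zpow_natCast,
    Int.toNat_of_nonneg h5]

variable {J : Type} [Fintype J]

variable (q a b) in
/-- Units times monomials in the words. -/
noncomputable def clsS (W : J → UP U) (σ : ℝ) (m : ℕ) (r : ℝ) : Submodule ℚ (UP U) :=
  Submodule.span ℚ {z | ∃ (γ : ℕ → ℤ × ℤ) (ξ η : ℝ) (μ : J → ℕ), (∀ j, μ j ≤ m) ∧ σ * ξ ≤ r ∧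
    Rate U q γ ξ η ∧ z = gm U a b γ * ∏ j, W j ^ μ j}

variable (q) in
/-- The filtration by the exponent of `a`. -/
noncomputable def cls (ha : a ≠ 0) (hb : b ≠ 0) (W : J → UP U) (σ : ℝ) : Fil (UP U) where
  F m r := (clsS q a b W σ m r).toAddSubgroup
  one := Submodule.subset_span ⟨0, 0, 0, 0, by simp, by simp, Rate.zero, by simp [gm_zero]⟩
  mul := by
    intro m m' r r' x y hx hy
    have := Submodule.mul_mem_mul hx hy
    rw [clsS, clsS, Submodule.span_mul_span] at this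
    refine Submodule.span_mono ?_ this
    rintro _ ⟨_, ⟨γ, ξ, η, μ, h1, h2, h3, rfl⟩, _, ⟨γ', ξ', η', μ', h1', h2', h3', rfl⟩, rfl⟩
    refine ⟨γ + γ', _, _, μ + μ', fun j => add_le_add (h1 j) (h1' j), by linarith, h3.add h3', ?_⟩
    simp only [gm_add ha hb, Pi.add_apply, pow_add, prod_mul_distrib]
    ring
  mono := by
    intro m m' r r' x h h' hx
    refine Submodule.span_mono ?_ hx
    rintro _ ⟨γ, ξ, η, μ, h1, h2, h3, rfl⟩
    exact ⟨γ, ξ, η, μ, fun j => (h1 j).trans h, h2.trans h', h3, rfl⟩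

lemma cls_term {W : J → UP U} {σ : ℝ} {γ : ℕ → ℤ × ℤ} {ξ η : ℝ} (h : Rate U q γ ξ η)
    (h' : σ * ξ ≤ 0) (j : J) : gm U a b γ * W j ∈ clsS q a b W σ 1 0 := by
  classical
  refine Submodule.subset_span ⟨γ, ξ, η, Pi.single j 1, fun i => ?_, h', h, ?_⟩
  · rw [Pi.single_apply]; split_ifs <;> omega
  · rw [prod_eq_single j (fun i _ hi => by simp [hi]) (by simp)]; simp

lemma cls_le_uw (W : J → ℕ → ℤ) (σ : ℝ) (m : ℕ) (r : ℝ) :
    clsS q a b (fun j => germ U fun k => W j k) σ m r ≤ uw U q a b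
      (fun μ : J → Fin (m + 1) => germ U fun k => (∏ j, W j k ^ (μ j : ℕ) : ℤ)) σ r := by
  refine Submodule.span_mono ?_
  rintro _ ⟨γ, ξ, η, μ, h1, h2, h3, rfl⟩
  refine ⟨γ, ξ, η, fun j => ⟨μ j, Nat.lt_succ_of_le (h1 j)⟩, h2, h3.1, h3.2, ?_⟩
  simp only [← map_pow, ← map_prod]
  congr 2
  ext k
  simp

lemma exists_int_family {ι : Type} [Fintype ι] {z : ι → UP U}
    (h : ∀ i, z i ∈ Submodule.span ℚ {z : UP U | ∃ f : ℕ → ℤ, z = germ U fun k => f k}) :
    ∃ (d : ℚ) (f : ι → ℕ → ℤ), d ≠ 0 ∧ ∀ i, d • z i = germ U fun k => f i k := by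
  classical
  choose d f hd hf using fun i => exists_int_of_span (h i)
  refine ⟨∏ i, d i, fun i k => (∏ j ∈ univ.erase i, d j) * f i k,
    prod_ne_zero_iff.mpr fun i _ => by exact_mod_cast hd i, fun i => ?_⟩
  rw [← prod_erase_mul _ _ (mem_univ i), mul_smul, hf, germ_smul]
  simp

end Pool.Agent.Lib.MP_c9a594_an.AI
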