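import Mathlib

/-! A Gelfond type criterion in bounded degree. -/

open Polynomial

namespace Pool.Agent.Lib.MP_c9a594_an.AI

lemma one_le_abs_aeval (y : ℝ) {p : ℤ[X]} (hp : p ≠ 0) (h : p.natDegree = 0) :
    1 ≤ |aeval y p| := by
  rw [eq_C_of_natDegree_eq_zero h] at hp ⊢
  rw [aeval_C, algebraMap_int_eq, eq_intCast]
  exact_mod_cast Int.one_le_abs fun h0 => hp (by rw [h0, C_0])

/-- A small value is inherited by an irreducible factor. -/
lemma exists_small_factor (y : ℝ) {ε : ℝ} (h0 : 0 < ε) (h1 : ε ≤ 1) (Q : ℤ[X]) :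
    Q ≠ 0 → |aeval y Q| < ε ^ Q.natDegree →
      ∃ R : ℤ[X], Irreducible R ∧ R ∣ Q ∧ R.natDegree ≠ 0 ∧ |aeval y R| < ε := by
  induction Q using WfDvdMonoid.induction_on_irreducible with
  | zero => exact fun h => absurd rfl h
  | unit u hu =>
    intro hu0 h
    rw [natDegree_eq_zero_of_isUnit hu, pow_zero] at h
    exact absurd (one_le_abs_aeval y hu0 (natDegree_eq_zero_of_isUnit hu)) (not_le.2 h)
  | mul a p ha hp ih =>
    intro _ h
    by_cases hc : p.natDegree ≠ 0 ∧ |aeval y p| < ε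
    · exact ⟨p, hp, dvd_mul_right _ _, hc⟩
    have h2 : ε ^ p.natDegree ≤ |aeval y p| := by
      by_cases hd : p.natDegree = 0
      · rw [hd, pow_zero]; exact one_le_abs_aeval y hp.ne_zero hd
      · exact (pow_le_of_le_one h0.le h1 hd).trans (not_lt.1 fun h => hc ⟨hd, h⟩)
    rw [natDegree_mul hp.ne_zero ha, map_mul, abs_mul, pow_add] at h
    obtain ⟨R, r1, r2, r3⟩ := ih ha (lt_of_mul_lt_mul_left
      ((mul_le_mul_of_nonneg_right h2 (abs_nonneg _)).trans_lt h) (pow_pos h0 _).le)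
    exact ⟨R, r1, r2.mul_left _, r3⟩

/-- Height of a divisor. -/
lemma height_of_dvd {R Q : ℤ[X]} (hQ : Q ≠ 0) (hd : R ∣ Q) {m : ℕ} (hm : Q.natDegree ≤ m) {H : ℝ}
    (hH : ∀ i, |(Q.coeff i : ℝ)| ≤ H) (i : ℕ) : |(R.coeff i : ℝ)| ≤ 2 ^ m * (m + 1) * H := by
  have hR := (natDegree_le_of_dvd hd hQ).trans hm
  obtain ⟨S, rfl⟩ := hd
  have h0 : 0 ≤ H := (abs_nonneg _).trans (hH 0)
  have h1 := norm_coeff_le_choose_mul_mahlerMeasure_of_one_le_mahlerMeasure i
    (R.map (Int.castRingHom ℂ)) _ (one_le_mahlerMeasure_of_ne_zero (right_ne_zero_of_mul hQ))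
  rw [← Polynomial.map_mul, coeff_map, eq_intCast, Complex.norm_intCast] at h1
  have h2 := mahlerMeasure_le_sum_norm_coeff ((R * S).map (Int.castRingHom ℂ))
  rw [sum_over_range' _ (by simp) (m + 1) (Nat.lt_succ_of_le (natDegree_map_le.trans hm))] at h2
  have h3 : ∑ j ∈ Finset.range (m + 1), ‖((R * S).map (Int.castRingHom ℂ)).coeff j‖ ≤
      (m + 1) * H := by
    refine (Finset.sum_le_card_nsmul _ _ H fun j _ => ?_).trans (by simp)
    rw [coeff_map, eq_intCast, Complex.norm_intCast]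
    exact hH j
  have h4 : ((R.map (Int.castRingHom ℂ)).natDegree.choose i : ℝ) ≤ 2 ^ m := by
    exact_mod_cast (Nat.choose_le_two_pow _ i).trans
      (Nat.pow_le_pow_right two_pos (natDegree_map_le.trans hR))
  rw [mul_assoc]
  exact h1.trans (mul_le_mul h4 (h2.trans h3) (mahlerMeasure_nonneg _) (by positivity))

lemma height_taylor (y : ℝ) {f : ℝ[X]} {m : ℕ} (hm : f.natDegree ≤ m) {H : ℝ}
    (hH : ∀ i, |f.coeff i| ≤ H) (k : ℕ) :
    |(taylor y f).coeff k| ≤ (m + 1) * ((1 + |y|) ^ m * 2 ^ m) * H := by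
  have h0 : 0 ≤ H := (abs_nonneg _).trans (hH 0)
  have hy : 1 ≤ 1 + |y| := le_add_of_nonneg_right (abs_nonneg y)
  rw [taylor_apply, comp_eq_sum_left, sum_over_range' _ (by simp) (m + 1) (Nat.lt_succ_of_le hm),
    finsetSum_coeff]
  refine (Finset.abs_sum_le_sum_abs _ _).trans ((Finset.sum_le_card_nsmul _ _
    (H * ((1 + |y|) ^ m * 2 ^ m)) fun j hj => ?_).trans (le_of_eq (by simp; ring)))
  have hj' : j ≤ m := Nat.lt_succ_iff.1 (Finset.mem_range.1 hj)
  rw [coeff_C_mul, coeff_X_add_C_pow, abs_mul, abs_mul, abs_pow, Nat.abs_cast]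
  refine mul_le_mul (hH j) (mul_le_mul ?_ ?_ (by positivity) (by positivity)) (by positivity) h0
  · exact (pow_le_pow_left₀ (abs_nonneg y) (by linarith) _).trans
      (pow_le_pow_right₀ hy (by omega))
  · exact_mod_cast (Nat.choose_le_two_pow _ k).trans (Nat.pow_le_pow_right two_pos hj')

lemma abs_det_le_rows {ι : Type} [Fintype ι] [DecidableEq ι] (M : Matrix ι ι ℝ) (r : ι → ℝ)
    (h : ∀ i j, |M i j| ≤ r i) : |M.det| ≤ (Fintype.card ι).factorial * ∏ i, r i := by
  rw [Matrix.det_apply']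
  refine (Finset.abs_sum_le_sum_abs _ _).trans ((Finset.sum_le_card_nsmul _ _ (∏ i, r i)
    fun σ _ => ?_).trans (by simp [Fintype.card_perm]))
  have h1 : |((Equiv.Perm.sign σ : ℤ) : ℝ)| = 1 := by
    rcases Int.units_eq_one_or (Equiv.Perm.sign σ) with h | h <;> simp [h]
  rw [abs_mul, h1, one_mul, Finset.abs_prod, ← Equiv.prod_comp σ r]
  exact Finset.prod_le_prod (fun a _ => abs_nonneg _) fun a _ => h _ _

/-- Two irreducible polynomials of moderate height that are both very small agree up to sign. -/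
lemma abs_aeval_eq (y : ℝ) {R S : ℤ[X]} (hR : Irreducible R) (hS : Irreducible S)
    (r0 : R.natDegree ≠ 0) (s0 : S.natDegree ≠ 0) {m : ℕ} (r1 : R.natDegree ≤ m)
    (s1 : S.natDegree ≤ m) {H ε : ℝ} (hH : 1 ≤ H) (r2 : ∀ i, |(R.coeff i : ℝ)| ≤ H)
    (s2 : ∀ i, |(S.coeff i : ℝ)| ≤ H) (r3 : |aeval y R| ≤ ε) (s3 : |aeval y S| ≤ ε)
    (h : (2 * m).factorial * (((m + 1) * ((1 + |y|) ^ m * 2 ^ m) * H) ^ (2 * m) * ε) < 1) :
    |aeval y R| = |aeval y S| := by
  have pR := hR.isPrimitive r0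
  rcases ((IsPrimitive.Int.irreducible_iff_irreducible_map_cast pR).1 hR).isCoprime_or_dvd
    (S.map (Int.castRingHom ℚ)) with hc | hc
  swap
  · obtain ⟨c, rfl⟩ := (IsPrimitive.Int.dvd_iff_map_cast_dvd_map_cast R S pR).2 hc
    obtain ⟨u, hu, rfl⟩ := Polynomial.isUnit_iff.1 ((hS.isUnit_or_isUnit rfl).resolve_left
      hR.not_isUnit)
    rcases Int.isUnit_iff.1 hu with rfl | rfl <;> simp
  exfalso
  have hres : resultant R S ≠ 0 := fun h0 => by
    have := resultant_ne_zero _ _ hc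
    rw [natDegree_map_eq_of_injective (Int.castRingHom ℚ).injective_int,
      natDegree_map_eq_of_injective (Int.castRingHom ℚ).injective_int, resultant_map_map, h0] at this
    exact this (map_zero _)
  set f := R.map (Int.castRingHom ℝ) with hf
  set g := S.map (Int.castRingHom ℝ) with hg
  have df : f.natDegree = R.natDegree :=
    natDegree_map_eq_of_injective (Int.castRingHom ℝ).injective_int _
  have dg : g.natDegree = S.natDegree :=
    natDegree_map_eq_of_injective (Int.castRingHom ℝ).injective_int _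
  have e : resultant (taylor y f) (taylor y g) = (resultant R S : ℤ) := by
    rw [resultant_taylor, df, dg, resultant_map_map, eq_intCast]
  have h1 : (1 : ℝ) ≤ |resultant (taylor y f) (taylor y g)| := by
    rw [e]; exact_mod_cast Int.one_le_abs hres
  set T := (m + 1) * ((1 + |y|) ^ m * 2 ^ m) * H with hT
  have hT1 : 1 ≤ T := one_le_mul_of_one_le_of_one_le (one_le_mul_of_one_le_of_one_le
    (by linarith [Nat.cast_nonneg (α := ℝ) m]) (one_le_mul_of_one_le_of_one_le
      (one_le_pow₀ (le_add_of_nonneg_right (abs_nonneg y))) (one_le_pow₀ one_le_two))) hH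
  have hε : 0 ≤ ε := (abs_nonneg _).trans r3
  have key : ∀ (p : ℤ[X]), p.natDegree ≤ m → (∀ i, |(p.coeff i : ℝ)| ≤ H) → |aeval y p| ≤ ε →
      ∀ (i j : ℕ) (c : Prop) [Decidable c], |if c then (taylor y (p.map (Int.castRingHom ℝ))).coeff
        (i - j) else 0| ≤ T * if i = 0 then ε else 1 := by
    intro p p1 p2 p3 i j c _
    split_ifs with hc hi hi
    · rw [hi, Nat.zero_sub, taylor_coeff_zero, ← algebraMap_int_eq, eval_map_algebraMap]
      exact p3.trans (le_mul_of_one_le_left hε hT1)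
    · rw [mul_one]
      exact height_taylor y (natDegree_map_le.trans p1) (fun i => by simpa using p2 i) _
    · rw [abs_zero]; positivity
    · rw [abs_zero]; positivity
  rw [resultant, natDegree_taylor, natDegree_taylor, df, dg] at h1
  have h2 := abs_det_le_rows (sylvester (taylor y f) (taylor y g) R.natDegree S.natDegree)
    (fun i => T * if (i : ℕ) = 0 then ε else 1) fun i j => by
      refine j.addCases (fun j => ?_) fun j => ?_
      · rw [sylvester, Matrix.of_apply, Fin.addCases_left]; exact key S s1 s2 s3 _ _ _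
      · rw [sylvester, Matrix.of_apply, Fin.addCases_right]; exact key R r1 r2 r3 _ _ _
  have h3 : ∏ i : Fin (R.natDegree + S.natDegree), (if (i : ℕ) = 0 then ε else 1) = ε := by
    rw [Finset.prod_eq_single ⟨0, by omega⟩ (fun b _ hb => if_neg fun h => hb (Fin.ext h))
      (by simp), if_pos rfl]
  rw [Finset.prod_mul_distrib, h3, Finset.prod_const, Finset.card_univ, Fintype.card_fin] at h2
  refine absurd (h1.trans (h2.trans ?_)) (not_le.2 h)
  have h4 : R.natDegree + S.natDegree ≤ 2 * m := by omega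
  exact mul_le_mul (by exact_mod_cast Nat.factorial_le h4)
    (mul_le_mul_of_nonneg_right (pow_le_pow_right₀ hT1 h4) hε) (by positivity) (by positivity)

/-- Nonzero integer polynomials of bounded degree that are very small at `y` at every scale force
`y` to be algebraic. -/
theorem gelfond (y : ℝ) (m : ℕ) (κ : ℝ)
    (h : ∀ K : ℝ, ∃ n0 : ℕ, ∀ n ≥ n0, ∃ Q : ℤ[X], Q ≠ 0 ∧ Q.natDegree ≤ m ∧
      (∀ i, |(Q.coeff i : ℝ)| ≤ Real.exp (κ * n)) ∧ |aeval y Q| ≤ Real.exp (-K * n)) :
    IsAlgebraic ℤ y := by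
  by_contra hy
  set A : ℝ := 2 ^ m * (m + 1) with hA
  set T : ℝ := (m + 1) * ((1 + |y|) ^ m * 2 ^ m) with hT
  set B : ℝ := (2 * m).factorial * (T * A * Real.exp |κ|) ^ (2 * m) with hB
  have hm : (0 : ℝ) ≤ m := Nat.cast_nonneg m
  have hA1 : 1 ≤ A := one_le_mul_of_one_le_of_one_le (one_le_pow₀ one_le_two) (by linarith)
  have hB0 : 0 < B := by positivity
  set K : ℝ := 2 * m * |κ| + B with hK
  have hK0 : 0 < K := by positivity
  obtain ⟨n0, hn⟩ := h (K * m + 1)
  have h1 : ∀ n : ℕ, ∃ R : ℤ[X], n0 + 1 ≤ n → Irreducible R ∧ R.natDegree ≠ 0 ∧ R.natDegree ≤ m ∧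
      (∀ i, |(R.coeff i : ℝ)| ≤ A * Real.exp (|κ| * n)) ∧ |aeval y R| < Real.exp (-K * n) := by
    intro n
    by_cases hn0 : n0 + 1 ≤ n
    swap
    · exact ⟨0, fun h => absurd h hn0⟩
    obtain ⟨Q, q0, q1, q2, q3⟩ := hn n (by omega)
    have hn1 : (1 : ℝ) ≤ n := by exact_mod_cast (by omega : 1 ≤ n)
    have e1 : Real.exp (-K * n) ≤ 1 := Real.exp_le_one_iff.2 (by nlinarith)
    obtain ⟨R, r1, r2, r3, r4⟩ := exists_small_factor y (Real.exp_pos _) e1 Q q0 (q3.trans_lt
      (lt_of_lt_of_le (by rw [← Real.exp_nat_mul, Real.exp_lt_exp]; nlinarith)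
        (pow_le_pow_of_le_one (Real.exp_pos _).le e1 q1)))
    exact ⟨R, fun _ => ⟨r1, r3, (natDegree_le_of_dvd r2 q0).trans q1, height_of_dvd q0 r2 q1
      fun i => (q2 i).trans (Real.exp_le_exp.2 (by gcongr; exact le_abs_self κ)), r4⟩⟩
  choose R hR using h1
  have h2 : ∀ n, n0 + 1 ≤ n → |aeval y (R n)| = |aeval y (R (n0 + 1))| := by
    intro n hn
    induction n, hn using Nat.le_induction with
    | base => rfl
    | succ n hn ih =>
      obtain ⟨a1, a2, a3, a4, a5⟩ := hR n hn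
      obtain ⟨b1, b2, b3, b4, b5⟩ := hR (n + 1) (by omega)
      have hn1 : (1 : ℝ) ≤ n := by exact_mod_cast (by omega : 1 ≤ n)
      have hκ := abs_nonneg κ
      push_cast at b4 b5
      rw [← ih]
      refine abs_aeval_eq y b1 a1 b2 a2 b3 a3 (H := A * Real.exp (|κ| * (n + 1)))
        (ε := Real.exp (-K * n)) (one_le_mul_of_one_le_of_one_le hA1
          (Real.one_le_exp (by positivity))) b4 (fun i => (a4 i).trans (by gcongr; linarith))
        (b5.le.trans (Real.exp_le_exp.2 (by nlinarith))) a5.le ?_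
      have e : ((2 * m).factorial : ℝ) * ((T * (A * Real.exp (|κ| * (n + 1)))) ^ (2 * m) *
          Real.exp (-K * n)) = B * Real.exp (-B * n) := by
        have e1 : Real.exp (|κ| * n) ^ (2 * m) * Real.exp (-K * n) = Real.exp (-B * n) := by
          rw [← Real.exp_nat_mul, ← Real.exp_add, hK]; push_cast; ring_nf
        rw [← e1, mul_add, mul_one, Real.exp_add, hB]
        simp only [mul_pow]
        ring
      rw [e]
      have h3 := Real.add_one_le_exp B
      have h4 : Real.exp (-B * n) ≤ Real.exp (-B) := Real.exp_le_exp.2 (by nlinarith)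
      have h5 : Real.exp B * Real.exp (-B) = 1 := by rw [← Real.exp_add]; simp
      nlinarith [Real.exp_pos (-B)]
  have h3 : 0 < |aeval y (R (n0 + 1))| :=
    abs_pos.2 fun h0 => hy ⟨_, (hR _ le_rfl).1.ne_zero, h0⟩
  have h4 : Filter.Tendsto (fun n : ℕ => Real.exp (-K * n)) Filter.atTop (nhds 0) :=
    Real.tendsto_exp_atBot.comp (tendsto_natCast_atTop_atTop.const_mul_atTop_of_neg (by linarith))
  obtain ⟨n, h5, h6⟩ := ((h4.eventually_lt_const h3).and
    (Filter.eventually_ge_atTop (n0 + 1))).exists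
  exact absurd ((h2 n h6).symm.trans_lt (hR n h6).2.2.2.2) (not_lt.2 h5.le)

end Pool.Agent.Lib.MP_c9a594_an.AI
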