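import Pool.Agent.Lib.MP_c9a594_an.AI.Ultra
import Pool.Agent.Lib.MP_c9a594_an.AI.Gelfond
import Pool.Agent.Lib.MP_c9a594_an.AI.AB

/-! Algebraic independence of two numbers of linear complexity in independent bases. -/

open Filter Topology Real Finset Polynomial

namespace Pool.Agent.Lib.MP_c9a594_an.AI

lemma transcendental_fract {x : ℝ} (h : Transcendental ℤ x) : Transcendental ℤ (Int.fract x) :=
  fun h' => h (by simpa using (isAlgebraic_intCast (R := ℤ) (A := ℝ) ⌊x⌋).add h')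

theorem no_relation (a b : ℕ) (ha : 2 ≤ a) (hb : 2 ≤ b)
    (hab : ∀ k l : ℕ, 0 < k → 0 < l → a ^ k ≠ b ^ l) (x y : ℝ) (hx : Transcendental ℤ x)
    (hy : Transcendental ℤ y) (C : ℝ) (h : ∀ᶠ n : ℕ in atTop, (cx a x n : ℝ) ≤ C * n)
    (h' : ∀ᶠ n : ℕ in atTop, (cx b y n : ℝ) ≤ C * n) (F : ℤ[X][X])
    (hF : ev2 (Int.fract y) (Int.fract x) F = 0) : F = 0 := by
  classical
  by_contra hF0
  have hex : ∃ n, ∃ G : ℤ[X][X], G ≠ 0 ∧ ev2 (Int.fract y) (Int.fract x) G = 0 ∧
      G.natDegree = n := ⟨_, F, hF0, hF, rfl⟩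
  obtain ⟨G, hG0, hG, hGn⟩ := Nat.find_spec hex
  obtain ⟨D, c, hw⟩ := words a ha C
  obtain ⟨D', c', hw'⟩ := words b hb C
  obtain ⟨m, κ, hkey⟩ := key_ultra a b ha hb hab _ _ (transcendental_fract hx) G hG0 hG
    (fun A hA h0 => by
      by_contra hA0
      exact Nat.find_min hex (hGn ▸ (natDegree_lt_iff_degree_lt hA0).mpr hA) ⟨A, hA0, h0, rfl⟩)
    (Option (Fin D) ⊕ Option (Fin D')) (|c| + |c'|) (by positivity)
  refine transcendental_fract hy (gelfond _ m κ fun K => ?_)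
  obtain ⟨M, n0, B, hw⟩ := hw (|K + κ|)
  obtain ⟨M', n0', B', hw'⟩ := hw' (|K + κ|)
  obtain ⟨n1, hn1⟩ := eventually_atTop.mp (h.and (h'.and
    ((eventually_ge_atTop n0).and (eventually_ge_atTop n0'))))
  by_contra hbad
  simp only [not_exists, not_forall] at hbad
  choose n hn hno using fun k => hbad (k + n1)
  have hn' := fun k => hn1 (n k) (le_of_add_le_right (hn k))
  choose d V s i e h1 h2 h3 h4 h5 h6 using fun k => hw (n k) (hn' k).2.2.1 x (hn' k).1
  choose d' V' s' i' e' h1' h2' h3' h4' h5' h6' using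
    fun k => hw' (n k) (hn' k).2.2.2 y (hn' k).2.1
  let U := Ultrafilter.of (atTop : Filter ℕ)
  have hq : Tendsto (fun k => (n k : ℝ)) U atTop := (tendsto_natCast_atTop_atTop.comp
    (tendsto_atTop_mono (fun k => le_of_add_le_left (hn k)) tendsto_id)).mono_left
      (Ultrafilter.of_le _)
  obtain ⟨s0, hs0⟩ := exists_const U s (Set.Finite.pi' fun _ => Set.finite_Icc (-1) 1)
    fun k t => abs_le.mp (h4 k t)
  obtain ⟨s0', hs0'⟩ := exists_const U s' (Set.Finite.pi' fun _ => Set.finite_Icc (-1) 1)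
    fun k t => abs_le.mp (h4' k t)
  obtain ⟨e0, he0⟩ := exists_const U e Set.finite_univ fun _ => trivial
  obtain ⟨e0', he0'⟩ := exists_const U e' Set.finite_univ fun _ => trivial
  have hc : ∀ {u v : ℝ} (k), u ≤ v → u * n k ≤ v * n k := fun k h =>
    mul_le_mul_of_nonneg_right h (Nat.cast_nonneg _)
  have hc1 : c ≤ |c| + |c'| := (le_abs_self c).trans (le_add_of_nonneg_right (abs_nonneg _))
  have hc2 : c' ≤ |c| + |c'| := (le_abs_self c').trans (le_add_of_nonneg_left (abs_nonneg _))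
  obtain ⟨k, Q, hQ0, hQ1, hQ2, hQ3⟩ := (hkey U _ hq
    (fun j k => Sum.elim (fun o : Option (Fin D) => o.elim (d k) (V k))
      (fun o : Option (Fin D') => o.elim (d' k) (V' k)) j)
    (by
      rintro ((_ | j) | (_ | j)) <;> refine Eventually.of_forall fun k => ?_
      exacts [(h2 k).trans (exp_le_exp.mpr (hc k hc1)), (h3 k j).trans (exp_le_exp.mpr (hc k hc1)),
        (h2' k).trans (exp_le_exp.mpr (hc k hc2)), (h3' k j).trans (exp_le_exp.mpr (hc k hc2))])
    (Fin M) (Fin M') s0 s0' (fun t => .inl (some (e0 t))) (fun t => .inr (some (e0' t)))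
    (.inl none) (.inr none) (fun t k => i k t) (fun t k => i' k t) (max B B') _ (abs_nonneg _)
    (Eventually.of_forall h1) (Eventually.of_forall h1')
    (fun t => Eventually.of_forall fun k => (h5 k t).trans (hc k (le_max_left _ _)))
    (fun t => Eventually.of_forall fun k => (h5' k t).trans (hc k (le_max_right _ _)))
    (by filter_upwards [hs0, he0] with k e1 e2; simpa [← e1, ← e2] using h6 k)
    (by filter_upwards [hs0', he0'] with k e1 e2; simpa [← e1, ← e2] using h6' k)).exists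
  exact hno k Q ⟨hQ0, hQ1, hQ2, hQ3.trans (exp_le_exp.mpr (hc k (by
    linarith [le_abs_self (K + κ)])))⟩

lemma algebraicIndependent_of_ev2 {x y : ℝ}
    (h : ∀ F : ℤ[X][X], ev2 (Int.fract y) (Int.fract x) F = 0 → F = 0) :
    AlgebraicIndependent ℚ ![x, y] := by
  have : Algebra.IsAlgebraic ℤ ℚ := IsLocalization.isAlgebraic ℚ (nonZeroDivisors ℤ)
  refine AlgebraicIndependent.extendScalars (R := ℤ) ℚ (algebraicIndependent_iff.mpr fun p hp => ?_)
  let φ : MvPolynomial (Fin 2) ℤ →ₐ[ℤ] ℤ[X][X] :=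
    MvPolynomial.aeval ![X + C (C ⌊x⌋), C (X + C ⌊y⌋)]
  let ψ : ℤ[X][X] →+* MvPolynomial (Fin 2) ℤ :=
    ev2 (MvPolynomial.X 1 - MvPolynomial.C ⌊y⌋) (MvPolynomial.X 0 - MvPolynomial.C ⌊x⌋)
  have h1 : ψ.comp φ.toRingHom = RingHom.id _ := by
    refine MvPolynomial.ringHom_ext (fun r => by simp) fun i => ?_
    fin_cases i <;> simp [φ, ψ, ev2_X, ev2_C]
  have h2 : (ev2 (Int.fract y) (Int.fract x)).comp φ.toRingHom =
      (MvPolynomial.aeval ![x, y] : MvPolynomial (Fin 2) ℤ →ₐ[ℤ] ℝ).toRingHom := by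
    refine MvPolynomial.ringHom_ext (fun r => by simp) fun i => ?_
    fin_cases i <;> simp [φ, ev2_X, ev2_C]
  have h3 := h (φ p) ((RingHom.congr_fun h2 p).trans hp)
  exact (RingHom.congr_fun h1 p).symm.trans (by simp [h3])

theorem algebraicIndependent_of_linear (a b : ℕ) (ha : 2 ≤ a) (hb : 2 ≤ b)
    (hab : ∀ k l : ℕ, 0 < k → 0 < l → a ^ k ≠ b ^ l) (x y : ℝ) (hx : Irrational x)
    (hy : Irrational y) (C : ℝ) (h : ∀ᶠ n : ℕ in atTop, (cx a x n : ℝ) ≤ C * n)
    (h' : ∀ᶠ n : ℕ in atTop, (cx b y n : ℝ) ≤ C * n) : AlgebraicIndependent ℚ ![x, y] :=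
  algebraicIndependent_of_ev2 (no_relation a b ha hb hab x y
    (transcendental_of_linear a ha x hx C h) (transcendental_of_linear b hb y hy C h') C h h')

end Pool.Agent.Lib.MP_c9a594_an.AI
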