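import Pool.Agent.Lib.MP_c9a594_an.Dioph

/-! Two sums of units times words with separated exponents that nearly agree are both small. -/

open MvPolynomial Finset

namespace Pool.Agent.Lib.MP_c9a594_an

section abs

variable {K Pl : Type} [Field K] [CharZero K] [Fintype Pl] {r : ℕ}

/-- The abstract separation lemma. -/
theorem Ctx.sep (X : Ctx K Pl) (v0 : Pl) {g : Fin r → K} (hg : ∀ i, g i ∈ X.O)
    (hg' : ∀ i, (g i)⁻¹ ∈ X.O) (hg0 : ∀ i, ∑ v, X.ord v (g i) = 0)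
    (hinj : ∀ F : MvPolynomial (Fin r) ℚ, aeval g F = 0 → F = 0)
    {J T T' : Type} [Fintype J] [Fintype T] [Fintype T'] (V : J → K) {c : ℝ} (hc : 0 ≤ c)
    (hV : ∀ j, V j = 0 ∨ V j ∈ X.O ∧ ∀ v, |X.ord v (V j)| ≤ c) (e : T → J) (e' : T' → J)
    (k : T → ℚ) (k' : T' → ℚ) (u : T → Fin r →₀ ℕ) (u' : T' → Fin r →₀ ℕ) (u0 : Fin r →₀ ℕ)
    (x Λ : K) (hx : mon g u0 * x = ∑ t, k t • (mon g (u t) * V (e t)))
    (hΛ : mon g u0 * (x - Λ) = ∑ t, k' t • (mon g (u' t) * V (e' t))) {Kc : ℝ}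
    (hΛ' : Λ = 0 ∨ Λ ∈ X.O ∧ X.ord v0 Λ ≤ -Kc)
    (hsep : ∀ t t', ¬ ∀ w, |X.wt g w (u t) - X.wt g w (u' t')| ≤
      2 * kap (Fintype.card J) (Fintype.card Pl) c 0) :
    ∃ Q : K, Q ≠ 0 ∧
      Q ∈ Submodule.span ℚ {z | z ∈ X.O ∧
        ∀ w, |X.ord w z| ≤ kap (Fintype.card J) (Fintype.card Pl) c 0} ∧
      Q * x ∈ Submodule.span ℚ {z | z ∈ X.O ∧
        X.ord v0 z ≤ kap (Fintype.card J) (Fintype.card Pl) c 0 - Kc} := by
  classical
  have hne : ∀ i, g i ≠ 0 := fun i h => X_ne_zero (R := ℚ) i (hinj _ (by rw [aeval_X, h]))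
  have hmon : ∀ a, mon g a ≠ 0 := fun a => prod_ne_zero_iff.mpr fun i _ => pow_ne_zero _ (hne i)
  obtain ⟨s, hE, hrel⟩ : ∃ s : Set J, (∀ Ψ : s → MvPolynomial (Fin r) ℚ,
      ∑ j, aeval g (Ψ j) * V j = 0 → ∀ j, Ψ j = 0) ∧ ∀ i, ∃ Ψ : Option s → MvPolynomial (Fin r) ℚ,
      Ψ none ≠ 0 ∧ ∑ j, aeval g (Ψ j) * (j.elim (V i) fun l => V l) = 0 := by
    let : Algebra (MvPolynomial (Fin r) ℚ) K := (aeval g).toRingHom.toAlgebra
    obtain ⟨s, h1, h2⟩ := exists_maximal_linearIndepOn (MvPolynomial (Fin r) ℚ) V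
    refine ⟨s, Fintype.linearIndependent_iff.mp h1, fun i => ?_⟩
    obtain ⟨a, ha, h3⟩ : ∃ a : MvPolynomial (Fin r) ℚ, a ≠ 0 ∧
        a • V i ∈ Submodule.span (MvPolynomial (Fin r) ℚ) (V '' s) := by
      by_cases hi : i ∈ s
      · exact ⟨1, one_ne_zero, by rw [one_smul]; exact Submodule.subset_span ⟨i, hi, rfl⟩⟩
      · exact h2 i hi
    rw [Set.image_eq_range, Submodule.mem_span_range_iff_exists_fun] at h3
    obtain ⟨f, hf⟩ := h3
    refine ⟨fun j => j.elim (-a) f, neg_ne_zero.mpr ha, ?_⟩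
    rw [Fintype.sum_option]
    change aeval g (-a) * V i + ∑ j : s, f j • V j = 0
    rw [hf, map_neg, neg_mul]
    exact neg_add_cancel _
  have hEne : ∀ j : s, V j ≠ 0 := fun j hj => by
    have := hE (Pi.single j 1) (by
      rw [sum_eq_single j (fun b _ hb => by simp [hb]) (by simp), hj, mul_zero]) j
    simp at this
  have hEO : ∀ j : s, V j ∈ X.O ∧ ∀ v, |X.ord v (V j)| ≤ c := fun j =>
    (hV j).resolve_left (hEne j)
  set n := Fintype.card J
  set p := Fintype.card Pl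
  have hn : Fintype.card s ≤ n := Fintype.card_subtype_le _
  set c1 : ℝ := (2 + (n + 2) * p) * c
  have hsp : ∀ i, ∃ (Φ : Option s → MvPolynomial (Fin r) ℚ) (ρ : Fin r →₀ ℕ), Φ none ≠ 0 ∧
      ∑ j, aeval g (Φ j) * (j.elim (V i) fun l => V l) = 0 ∧ ∀ j, X.Near g ρ c1 (Φ j) := by
    intro i
    obtain ⟨Ψ, h0, hΨ⟩ := hrel i
    exact X.spread hg hg0 hinj hc hn (by rintro (_ | j); exacts [hV _, hV _]) hEne hE h0 hΨ
  choose Φ ρ hΦ0 hΦ hnear using hsp
  let N : J → s → MvPolynomial (Fin r) ℚ := fun i l =>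
    ∏ j, if j = i then -Φ j (some l) else Φ j none
  have hN : ∀ i l, X.Near g (∑ j, ρ j) (n * c1) (N i l) := fun i l =>
    X.near_prod univ fun j => by
      split_ifs
      · exact fun a ha => hnear j _ a (by simpa using ha)
      · exact hnear j _
  set Δ := ∏ j, Φ j none with hΔ
  have hΔn : X.Near g (u0 + ∑ j, ρ j) (0 + n * c1) (monomial u0 1 * Δ) :=
    (X.near_monomial u0 1).mul (X.near_prod univ fun j => hnear j none)
  have hΔV : ∀ i, aeval g Δ * V i = ∑ l, aeval g (N i l) * V l := fun i => by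
    have h1 := hΦ i
    rw [Fintype.sum_option] at h1
    have h2 : ∀ l, N i l = -Φ i (some l) * ∏ j ∈ univ.erase i, Φ j none := fun l => by
      simp only [N]
      rw [← mul_prod_erase _ _ (mem_univ i), if_pos rfl]
      exact congrArg _ (prod_congr rfl fun j hj => if_neg (mem_erase.mp hj).1)
    rw [hΔ, ← mul_prod_erase _ _ (mem_univ i)]
    simp only [h2, map_mul, map_neg, mul_right_comm _ (aeval g (∏ j ∈ univ.erase i, Φ j none)),
      ← sum_mul, neg_mul, sum_neg_distrib]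
    simp only [Option.elim] at h1
    rw [eq_neg_of_add_eq_zero_left h1, neg_mul]
  have hsum : ∀ {T : Type} [Fintype T] (e : T → J) (k : T → ℚ) (u : T → Fin r →₀ ℕ),
      aeval g Δ * ∑ t, k t • (mon g (u t) * V (e t)) =
      ∑ l, aeval g (∑ t, monomial (u t) (k t) * N (e t) l) * V l := by
    intro T _ e k u
    simp only [map_sum, sum_mul, map_mul, aeval_monomial_eq]
    rw [sum_comm, mul_sum]
    refine sum_congr rfl fun t _ => ?_
    simp only [mul_assoc, smul_mul_assoc, mul_smul_comm]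
    rw [mul_left_comm, hΔV, mul_sum, Finset.smul_sum]
  have hsupp : ∀ {T : Type} [Fintype T] (e : T → J) (k : T → ℚ) (u : T → Fin r →₀ ℕ) l a,
      a ∈ (∑ t, monomial (u t) (k t) * N (e t) l).support →
      ∃ t, ∀ w, |X.wt g w a - X.wt g w (u t + ∑ j, ρ j)| ≤ 0 + n * c1 := by
    intro T _ e k u l a ha
    obtain ⟨t, -, ht⟩ := mem_biUnion.mp (support_sum ha)
    exact ⟨t, ((X.near_monomial (u t) (k t)).mul (hN _ l)) a ht⟩
  set A : s → MvPolynomial (Fin r) ℚ := fun l => ∑ t, monomial (u t) (k t) * N (e t) l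
  set B : s → MvPolynomial (Fin r) ℚ := fun l => ∑ t, monomial (u' t) (k' t) * N (e' t) l
  have hA : aeval g (monomial u0 1 * Δ) * x = ∑ l, aeval g (A l) * V l := by
    rw [← hsum, ← hx, map_mul, aeval_monomial_eq, one_smul]; ring
  have hB : aeval g (monomial u0 1 * Δ) * (x - Λ) = ∑ l, aeval g (B l) * V l := by
    rw [← hsum, ← hΛ, map_mul, aeval_monomial_eq, one_smul]; ring
  have hΔ0 : monomial u0 (1 : ℚ) * Δ ≠ 0 :=
    mul_ne_zero (by simp) (prod_ne_zero_iff.mpr fun j _ => hΦ0 j)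
  set ρ0 := u0 + ∑ j, ρ j
  have hc1 : 0 ≤ c1 := by positivity
  have hkap : kap n p c 0 = (1 + 2 * 0) * (n * c1) + c + n * (p * c) := rfl
  have hp2 : 0 ≤ n * (p * c) := by positivity
  have hp3 : 0 ≤ n * c1 := by positivity
  refine ⟨aeval g (monomial u0 1 * Δ) * 1 * (mon g ρ0)⁻¹, ?_, ?_, ?_⟩
  · exact mul_ne_zero (mul_ne_zero (fun h => hΔ0 (hinj _ h)) one_ne_zero) (inv_ne_zero (hmon _))
  · refine mem_span_of_support fun a ha => ?_
    obtain ⟨h1, h2⟩ := X.ord_frac hg hg' hne X.O.one_mem a ρ0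
    refine ⟨h1, fun w => ?_⟩
    rw [h2, X.ord_one, zero_add]
    refine (hΔn a ha w).trans ?_
    linarith
  · rw [mul_one, mul_right_comm, hA, sum_mul]
    refine Submodule.sum_mem _ fun l _ => mem_span_of_support fun a ha => ?_
    obtain ⟨h1, h2⟩ := X.ord_frac hg hg' hne (hEO l).1 a ρ0
    refine ⟨h1, ?_⟩
    have h3 : aeval g (monomial u0 1 * Δ) * Λ + ∑ l, aeval g (B l - A l) * V l = 0 := by
      simp only [map_sub, sub_mul, sum_sub_distrib]
      linear_combination hA - hB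
    have ha' : a ∈ (B l - A l).support := by
      have hB' : a ∉ (B l).support := fun hb => by
        obtain ⟨t, ht⟩ := hsupp e k u l a ha
        obtain ⟨t', ht'⟩ := hsupp e' k' u' l a hb
        refine hsep t t' fun w => ?_
        have h4 := abs_le.mp (ht w)
        have h5 := abs_le.mp (ht' w)
        rw [map_add] at h4 h5
        rw [abs_le]
        constructor <;> linarith
      rw [mem_support_iff, coeff_sub, notMem_support_iff.mp hB', zero_sub, neg_ne_zero]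
      exact mem_support_iff.mp ha
    rcases hΛ' with h0 | ⟨h4, h5⟩
    · rw [h0, mul_zero, zero_add] at h3
      rw [hE _ h3 l] at ha'
      simp at ha'
    obtain ⟨e0, he0, h6⟩ := X.disjoint hg hg0 hinj (E := fun j => j.elim Λ fun l : s => V l)
      (by rintro (_ | j); exacts [h4, (hEO j).1]) hE
      (Ψ := fun j => j.elim (monomial u0 1 * Δ) fun l => B l - A l) hΔ0
      (by rw [Fintype.sum_option]; exact h3) v0 (l := l) ha'
    have h7 := abs_le.mp (hΔn e0 he0 v0)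
    have h8 : ∑ j : s, ∑ v, X.ord v (V j) ≤ n * (p * c) := by
      have := sum_le_sum (s := univ) fun (j : s) _ =>
        sum_le_sum (s := univ) fun v _ => (abs_le.mp ((hEO j).2 v)).2
      simp only [sum_const, card_univ, nsmul_eq_mul] at this
      refine this.trans (mul_le_mul_of_nonneg_right ?_ (by positivity))
      exact_mod_cast hn
    simp only [Option.elim] at h6
    rw [h2]
    linarith

end abs

open Filter Topology Real Pool.Agent.Subspace

variable {U : Ultrafilter ℕ} {q : ℕ → ℝ}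

lemma tame_of_lim (hq : Tendsto q U atTop) {γ : ℕ → ℤ × ℤ} {x y : ℝ}
    (hx : Tendsto (fun k => ((γ k).1 : ℝ) / q k) U (𝓝 x))
    (hy : Tendsto (fun k => ((γ k).2 : ℝ) / q k) U (𝓝 y)) : γ ∈ tameE U q := by
  refine ⟨max |x| |y| + 1, ?_⟩
  filter_upwards [(hx.abs.max hy.abs).eventually_lt_const (lt_add_one _), hq.eventually_gt_atTop 0]
    with k h1 h2
  rw [abs_div, abs_div, abs_of_pos h2, max_div_div_right h2.le, div_lt_iff₀ h2] at h1
  exact h1.le

variable (U q) in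
/-- Units times words, with the rate of the exponent of `a` on one side of `r`. -/
noncomputable def uw (a b : ℕ) {J : Type} (V : J → UP U) (σ r : ℝ) : Submodule ℚ (UP U) :=
  Submodule.span ℚ {z | ∃ (γ : ℕ → ℤ × ℤ) (ξ η : ℝ) (j : J), σ * ξ ≤ r ∧
    Tendsto (fun k => ((γ k).1 : ℝ) / q k) U (𝓝 ξ) ∧
    Tendsto (fun k => ((γ k).2 : ℝ) / q k) U (𝓝 η) ∧ z = gm U a b γ * V j}

theorem sep_ultra (a b : ℕ) (ha : 2 ≤ a) (hb : 2 ≤ b)
    (hab : ∀ k l : ℕ, 0 < k → 0 < l → a ^ k ≠ b ^ l) (J : Type) [Fintype J] (c : ℝ) :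
    ∃ κ : ℝ, 0 < κ ∧ ∀ (U : Ultrafilter ℕ) (q : ℕ → ℝ) (hq : Tendsto q U atTop) (V : J → ℕ → ℤ),
      (∀ j, ∀ᶠ k in U, |(V j k : ℝ)| ≤ exp (c * q k)) → ∀ (K : ℝ) (x x' : UP U),
      x ∈ uw U q a b (fun j => germ U fun k => V j k) (-1) 0 →
      x' ∈ uw U q a b (fun j => germ U fun k => V j k) 1 (-κ) →
      x - x' ∈ small hq (-K) → x ∈ small hq (κ - K) := by
  have ha0 : a ≠ 0 := by omega
  have hb0 : b ≠ 0 := by omega
  have hω := mul_ne_zero ha0 hb0
  set S := (a * b).primeFactors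
  have hS : ∀ p ∈ S, p.Prime := fun p => Nat.prime_of_mem_primeFactors
  have hωS : ∀ p, p.Prime → p ∣ a * b → p ∈ S := fun p hp h =>
    Nat.mem_primeFactors.mpr ⟨hp, h, hω⟩
  obtain ⟨C0, hC0, hCr⟩ := exists_cramer hS ha hb hab hωS
  set κ0 := kap (Fintype.card J) (Fintype.card (Option S)) |c| 0
  have hκ0 : 0 ≤ κ0 := by simp only [κ0, kap]; positivity
  obtain ⟨M0, hM0⟩ := exists_nat_gt (κ0 / log 2)
  rw [div_lt_iff₀ (log_pos one_lt_two)] at hM0
  have hl : 0 ≤ M0 * (log a + log b) :=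
    mul_nonneg (Nat.cast_nonneg _) (add_nonneg (log_natCast_nonneg _) (log_natCast_nonneg _))
  have hCκ : 0 ≤ C0 * (2 * κ0) := by positivity
  refine ⟨κ0 + M0 * (log a + log b) + C0 * (2 * κ0) + 1, by positivity,
    fun U q hq V hV K x x' hx hx' hΛ => ?_⟩
  obtain ⟨n, s, z, hz⟩ := Submodule.mem_span_set'.mp hx
  obtain ⟨n', s', z', hz'⟩ := Submodule.mem_span_set'.mp hx'
  choose γ1 ξ1 η1 e h1 h2 h3 h4 using fun t => (z t).2
  choose γ2 ξ2 η2 e' h1' h2' h3' h4' using fun t => (z' t).2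
  let γ : Fin n ⊕ Fin n' → ℕ → ℤ × ℤ := Sum.elim γ1 γ2
  have hγ : ∀ t, γ t ∈ tameE U q := by
    rintro (t | t)
    exacts [tame_of_lim hq (h2 t) (h3 t), tame_of_lim hq (h2' t) (h3' t)]
  obtain ⟨r, g, u, u0, c0, hg, hgi, hu⟩ := exists_monomials (a := a) (b := b) ha0 hb0 γ hγ
  let X := ctxU hS hq hω hωS
  have hXo : X.ord = ordU U hS q := rfl
  have hgO : ∀ j, gm U a b (g j) ∈ X.O := fun j => gm_mem ha0 hb0 (hg j)
  have hwt : ∀ t w, X.wt (fun j => gm U a b (g j)) w (u t) - X.wt (fun j => gm U a b (g j)) w u0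
      = X.ord w (gm U a b (γ t)) := fun t w => by
    have h1 := congrArg (X.ord w) (hu t)
    have h2 : (fun _ => c0 t) ∈ tameE U q := ⟨1, (hq.eventually_ge_atTop ‖c0 t‖).mono
      fun k hk => by rwa [one_mul]⟩
    rw [X.ord_mul w _ (X.mon_mem hgO _) _ (gm_mem ha0 hb0 (hγ t)),
      X.ord_mul w _ (gm_mem ha0 hb0 h2) _ (X.mon_mem hgO _), X.ord_mon hgO, X.ord_mon hgO, hXo,
      ordU_gm (γ := fun _ => c0 t) ha0 hb0 (tendsto_const_nhds.div_atTop hq)
        (tendsto_const_nhds.div_atTop hq)] at h1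
    rw [hXo]
    linarith
  let Vb : J → UP U := fun j => germ U fun k => V j k
  have hVb : ∀ j, Vb j = 0 ∨ Vb j ∈ X.O ∧ ∀ v, |X.ord v (Vb j)| ≤ |c| := fun j =>
    (int_mem_or hq (hV j)).imp_right fun h =>
      ⟨int_mem hq h, fun v => (abs_ordU_int hq h v).trans (le_abs_self c)⟩
  have hx1 : x = ∑ t, s t • (gm U a b (γ (.inl t)) * Vb (e t)) := by
    rw [← hz]; exact sum_congr rfl fun t _ => congrArg (s t • ·) (h4 t)
  have hx2 : x' = ∑ t, s' t • (gm U a b (γ (.inr t)) * Vb (e' t)) := by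
    rw [← hz']; exact sum_congr rfl fun t _ => congrArg (s' t • ·) (h4' t)
  have hmul : ∀ {T : Type} [Fintype T] (σ : T → ℚ) (τ : T → Fin n ⊕ Fin n') (z : T → UP U),
      mon (fun j => gm U a b (g j)) u0 * ∑ t, σ t • (gm U a b (γ (τ t)) * z t) =
      ∑ t, (σ t * ((a : ℚ) ^ (c0 (τ t)).1 * (b : ℚ) ^ (c0 (τ t)).2)) •
        (mon (fun j => gm U a b (g j)) (u (τ t)) * z t) := by
    intro T _ σ τ z
    rw [mul_sum]
    exact sum_congr rfl fun t _ => by
      rw [mul_smul_comm, ← mul_assoc, hu, mul_assoc, gm_const, smul_smul]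
  have hor : ∀ {T : Type} [Fintype T] (σ : T → ℚ) (τ : T → Fin n ⊕ Fin n') (ε : T → J),
      ∃ d : ℤ, d ≠ 0 ∧ ((d : ℚ) • ∑ t, σ t • (gm U a b (γ (τ t)) * Vb (ε t)) = 0 ∨
      (d : ℚ) • ∑ t, σ t • (gm U a b (γ (τ t)) * Vb (ε t)) ∈ tameO U q (a * b)) := by
    intro T _ σ τ ε
    refine sum_induction _
      (fun z => ∃ d : ℤ, d ≠ 0 ∧ ((d : ℚ) • z = 0 ∨ (d : ℚ) • z ∈ tameO U q (a * b))) ?_
      ⟨1, one_ne_zero, Or.inl (smul_zero _)⟩ fun t _ => ⟨(σ t).den, by simp, ?_⟩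
    · rintro x y ⟨d, hd, h⟩ ⟨d', hd', h'⟩
      refine ⟨d * d', mul_ne_zero hd hd', ?_⟩
      rw [smul_add, Int.cast_mul, mul_smul _ _ y, mul_comm, mul_smul]
      exact add_mem_or hq hω (zsmul_mem_or hq _ h) (zsmul_mem_or hq _ h')
    · rw [smul_smul, Int.cast_natCast, mul_comm, Rat.mul_den_eq_num]
      exact zsmul_mem_or hq _ (mul_mem_or (Or.inr (gm_mem ha0 hb0 (hγ _)))
        ((hVb _).imp_right And.left))
  obtain ⟨d1, hd1, hor1⟩ := hor s .inl e
  obtain ⟨d2, hd2, hor2⟩ := hor s' .inr e'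
  rw [← hx1] at hor1
  rw [← hx2] at hor2
  set d0 : ℚ := d1 * d2 with hd0
  have hd00 : d0 ≠ 0 := by rw [hd0]; exact_mod_cast mul_ne_zero hd1 hd2
  obtain ⟨Q, hQ0, hQ, hQP⟩ := X.sep none hgO
    (fun j => gm_neg (g j) ▸ gm_mem ha0 hb0 (Submodule.neg_mem _ (hg j)))
    (fun j => sum_ordU_gm hq ha0 hb0 hωS (hg j)) (aeval_gm_injective ha hb hab hgi) Vb
    (abs_nonneg c) hVb e e' _ _ (fun t => u (.inl t))
    (fun t => u (.inr t)) u0 (d0 • x) (d0 • (x - x'))
    (by rw [hx1, Finset.smul_sum]; simp only [smul_smul]; rw [hmul])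
    (by rw [← smul_sub, sub_sub_cancel, hx2, Finset.smul_sum]; simp only [smul_smul]; rw [hmul])
    (Kc := K) (by
      have h1 : d0 • (x - x') = 0 ∨ d0 • (x - x') ∈ tameO U q (a * b) := by
        have := add_mem_or hq hω (zsmul_mem_or hq d2 hor1) (zsmul_mem_or hq (-d1) hor2)
        rwa [smul_smul, smul_smul, Int.cast_neg, neg_mul, mul_comm (d2 : ℚ), neg_smul,
          ← sub_eq_add_neg, ← smul_sub] at this
      refine h1.imp_right fun h => ⟨h, ?_⟩
      have h5 := Submodule.smul_mem _ d0 hΛ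
      obtain ⟨f, hf⟩ := germ_surj (d0 • (x - x'))
      rw [← hf] at h h5 ⊢
      exact le_of_forall_pos_le_add fun ε hε => ordU_le hq hω h none (h5 f rfl ε hε))
    (fun t t' h => by
      have h5 := (hCr (ξ1 t - ξ2 t') (η1 t - η2 t') (2 * κ0) fun v => by
        have := h v
        rw [← sub_sub_sub_cancel_right _ _ (X.wt (fun j => gm U a b (g j)) v u0), hwt, hwt, hXo,
          ordU_gm (γ := γ (.inl t)) ha0 hb0 (h2 t) (h3 t),
          ordU_gm (γ := γ (.inr t')) ha0 hb0 (h2' t') (h3' t')] at this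
        convert this using 2
        ring).1
      linarith [le_abs_self (ξ1 t - ξ2 t'), h1 t, h1' t'])
  let W := gm U a b fun k => (M0 * ⌈q k⌉₊, M0 * ⌈q k⌉₊)
  have hlim : Tendsto (fun k => ((M0 * ⌈q k⌉₊ : ℤ) : ℝ) / q k) U (𝓝 M0) := by
    have h5 : Tendsto (fun k => (⌈q k⌉₊ : ℝ) / q k) U (𝓝 1) :=
      (tendsto_nat_ceil_div_atTop (R := ℝ)).comp hq
    simpa [mul_div_assoc] using h5.const_mul (M0 : ℝ)
  have hWO : W ∈ X.O := gm_mem ha0 hb0 (tame_of_lim hq hlim hlim)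
  have hWo : ∀ v z, z ∈ X.O → ordU U hS q v (W * z) =
      M0 * (log (plAbs S hS v a) + log (plAbs S hS v b)) + X.ord v z := fun v z hz => by
    rw [← hXo, X.ord_mul v _ hWO _ hz, hXo,
      ordU_gm (γ := fun k => ((M0 * ⌈q k⌉₊ : ℤ), (M0 * ⌈q k⌉₊ : ℤ))) ha0 hb0 hlim hlim, mul_add]
  obtain ⟨d, f, hd, hf⟩ : ∃ (d : ℤ) (f : ℕ → ℤ), d ≠ 0 ∧
      (d : ℚ) • (W * Q) = germ U fun k => f k := by
    refine exists_int_of_span (mul_mem_of_span (fun z hz => Submodule.subset_span ?_) hQ)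
    refine exists_int (hS := hS) hq hω hωS (X.O.mul_mem hWO hz.1) fun p => ?_
    rw [hWo _ _ hz.1, ← log_mul ((plAbs S hS _).ne_zero (by simpa))
      ((plAbs S hS _).ne_zero (by simpa)), ← map_mul, ← Nat.cast_mul, log_plAbs_nat hω]
    have h1 : (1 : ℝ) ≤ (a * b).factorization p := by
      exact_mod_cast (hS p p.2).factorization_pos_of_dvd hω (Nat.dvd_of_mem_primeFactors p.2)
    have h2 : log 2 ≤ log ((p : ℕ) : ℝ) := log_le_log two_pos (by exact_mod_cast (hS p p.2).two_le)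
    have h3 := mul_le_mul h1 h2 (log_pos one_lt_two).le (zero_le_one.trans h1)
    have h4 := mul_le_mul_of_nonneg_left h3 (Nat.cast_nonneg (α := ℝ) M0)
    linarith [abs_le.mp (hz.2 (some p))]
  have hsm : W * (Q * (d0 • x)) ∈ small hq (κ0 - K + M0 * (log a + log b)) := by
    refine mul_mem_of_span
      (fun z hz => mem_small (hS := hS) hq hω (X.O.mul_mem hWO hz.1) ?_) hQP
    rw [hWo _ _ hz.1, plAbs_none, plAbs_none]
    simp only [Rat.cast_natCast, Nat.abs_cast]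
    linarith [hz.2]
  have h5 : ¬ ∀ᶠ k in U, (f k : ℚ) = 0 := by
    rw [← germ_eq_zero, ← hf]
    refine smul_ne_zero (by exact_mod_cast hd) (mul_ne_zero (fun h => ?_) hQ0)
    obtain ⟨k, hk⟩ := ((germ_eq_zero.mp h).and (ne_zero_of_mem hω hWO)).exists
    exact hk.2 hk.1
  rintro y rfl ε hε
  have h6 := Submodule.smul_mem _ (d / d0 : ℚ) hsm
  have e1 : (d / d0 : ℚ) • (W * (Q * (d0 • germ U y))) = germ U fun k => f k * y k := by
    rw [mul_smul_comm, mul_smul_comm, smul_smul, div_mul_cancel₀ _ hd00, ← mul_assoc,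
      ← smul_mul_assoc, hf, ← map_mul]
    rfl
  filter_upwards [h6 _ e1 ε hε, Ultrafilter.eventually_not.mpr h5, hq.eventually_ge_atTop 0]
    with k h7 h8 h9
  have h10 : (1 : ℝ) ≤ |(f k : ℝ)| := by exact_mod_cast Int.one_le_abs (by exact_mod_cast h8)
  rw [Rat.cast_mul, abs_mul, Rat.cast_intCast] at h7
  refine (le_mul_of_one_le_left (abs_nonneg _) h10).trans (h7.trans (exp_le_exp.mpr ?_))
  exact mul_le_mul_of_nonneg_right (by linarith) h9

end Pool.Agent.Lib.MP_c9a594_an
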