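import Mathlib

/-! A formal Siegel lemma, and Euler operators to keep the solution nonzero after evaluation. -/

open MvPolynomial Finset

namespace Pool.Agent.Lib.MP_c9a594_an.AI

section euler

variable {σ K : Type} [Field K] [CharZero K]

/-- The Euler operator in one variable. -/
noncomputable def th (i : σ) : MvPolynomial σ ℚ →ₗ[ℚ] MvPolynomial σ ℚ :=
  (LinearMap.mulLeft ℚ (X i)).comp (pderiv i).toLinearMap

lemma th_apply (i : σ) (F : MvPolynomial σ ℚ) : th i F = X i * pderiv i F := rfl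

lemma coeff_th (i : σ) (m : σ →₀ ℕ) (F : MvPolynomial σ ℚ) :
    coeff m (th i F) = m i * coeff m F := by
  classical
  induction F using MvPolynomial.induction_on' with
  | monomial u a =>
    rw [th_apply, X_mul_pderiv_monomial, coeff_smul, coeff_monomial]
    split_ifs with h
    · simp [h]
    · simp
  | add p q hp hq => rw [map_add, coeff_add, coeff_add, hp, hq, mul_add]

lemma th_mul (i : σ) (F G : MvPolynomial σ ℚ) : th i (F * G) = th i F * G + F * th i G := by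
  simp only [th_apply, Derivation.leibniz, smul_eq_mul]
  ring

/-- Iterated Euler operators. -/
noncomputable def eul : List σ → MvPolynomial σ ℚ →ₗ[ℚ] MvPolynomial σ ℚ
  | [] => LinearMap.id
  | i :: w => (eul w).comp (th i)

lemma support_eul (w : List σ) (F : MvPolynomial σ ℚ) : (eul w F).support ⊆ F.support := by
  induction w generalizing F with
  | nil => exact Subset.rfl
  | cons i w ih =>
    refine (ih (th i F)).trans fun m hm => ?_
    rw [mem_support_iff, coeff_th] at hm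
    exact mem_support_iff.mpr (right_ne_zero_of_mul hm)

lemma exists_eul_ne {g : σ → K} (hg : ∀ i, g i ≠ 0) {F : MvPolynomial σ ℚ} (hF : F ≠ 0) :
    ∃ w, aeval g (eul w F) ≠ 0 := by
  classical
  induction h : F.support.card using Nat.strong_induction_on generalizing F with
  | _ n ih =>
  obtain ⟨m, hm⟩ := support_nonempty.mpr hF
  by_cases h1 : ∀ m' ∈ F.support, m' = m
  · refine ⟨[], ?_⟩
    have : F = monomial m (coeff m F) := by
      conv_lhs => rw [F.as_sum, (eq_singleton_iff_unique_mem.mpr ⟨hm, h1⟩ : F.support = {m}),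
        sum_singleton]
    rw [this]
    simp only [eul, LinearMap.id_apply, aeval_monomial]
    refine mul_ne_zero ?_ (Finsupp.prod_ne_zero_iff.mpr fun i _ => pow_ne_zero _ (hg i))
    simpa using mem_support_iff.mp hm
  push Not at h1
  obtain ⟨m', hm', hne⟩ := h1
  obtain ⟨i, hi⟩ : ∃ i, m' i ≠ m i := by
    by_contra! hc
    exact hne (Finsupp.ext hc)
  have hc : ∀ u, coeff u (th i F - (m' i : ℚ) • F) = ((u i : ℚ) - m' i) * coeff u F := fun u => by
    rw [coeff_sub, coeff_th, coeff_smul, smul_eq_mul, sub_mul]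
  obtain ⟨w, hw⟩ := ih _ (h ▸ card_lt_card (s := (th i F - (m' i : ℚ) • F).support)
    (t := F.support) ⟨fun u hu => by
      rw [mem_support_iff, hc] at hu
      exact mem_support_iff.mpr (right_ne_zero_of_mul hu), fun hs => by
      have := mem_support_iff.mp (hs hm')
      rw [hc, sub_self, zero_mul] at this
      exact this rfl⟩) (F := th i F - (m' i : ℚ) • F) (fun h0 => by
      have := hc m
      rw [h0, coeff_zero] at this
      exact mul_ne_zero (sub_ne_zero.mpr (by exact_mod_cast hi.symm)) (mem_support_iff.mp hm)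
        this.symm) rfl
  by_contra! hall
  apply hw
  rw [map_sub, map_smul, map_sub, map_smul, hall w, smul_zero, sub_zero]
  exact hall (i :: w)

lemma eul_mul (g : σ → K) (w : List σ) (z Y : MvPolynomial σ ℚ)
    (h : ∀ w' : List σ, w'.length < w.length → aeval g (eul w' z) = 0) :
    aeval g (eul w (z * Y)) = aeval g (eul w z) * aeval g Y := by
  induction w generalizing z Y with
  | nil => simp [eul]
  | cons i w ih =>
    simp only [eul, LinearMap.comp_apply, th_mul, map_add]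
    rw [ih (th i z) Y fun w' hw' => h (i :: w') (by simpa using hw'),
      ih z _ fun w' hw' => h w' (by simp; omega), h w (by simp), zero_mul, add_zero]

lemma exists_eul {g : σ → K} (hg : ∀ i, g i ≠ 0) {ι : Type} [Fintype ι]
    (z Y : ι → MvPolynomial σ ℚ) (hz : ∃ k, z k ≠ 0) : ∃ w, (∃ k, aeval g (eul w (z k)) ≠ 0) ∧
      aeval g (eul w (∑ k, z k * Y k)) = ∑ k, aeval g (eul w (z k)) * aeval g (Y k) := by
  classical
  have h : ∃ n, ∃ w : List σ, w.length = n ∧ ∃ k, aeval g (eul w (z k)) ≠ 0 := by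
    obtain ⟨k, hk⟩ := hz
    obtain ⟨w, hw⟩ := exists_eul_ne hg hk
    exact ⟨_, w, rfl, k, hw⟩
  obtain ⟨w, hw, h1⟩ := Nat.find_spec h
  refine ⟨w, h1, ?_⟩
  rw [map_sum, map_sum]
  refine sum_congr rfl fun k _ => eul_mul g w _ _ fun w' hw' => ?_
  by_contra hc
  exact Nat.find_min h (hw ▸ hw') ⟨w', rfl, k, hc⟩

lemma aeval_mem [Fintype σ] (g : σ → K) (Z : Submodule ℚ K) {F : MvPolynomial σ ℚ}
    (h : ∀ m ∈ F.support, ∏ i, g i ^ m i ∈ Z) : aeval g F ∈ Z := by
  rw [F.as_sum, map_sum]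
  refine Z.sum_mem fun m hm => ?_
  rw [aeval_monomial, ← Algebra.smul_def, Finsupp.prod_fintype _ _ (by simp)]
  exact Z.smul_mem _ (h m hm)

/-- Polynomials with bounded exponents and monomials of nonpositive weight. -/
def Bx (w : σ → ℝ) (n : ℕ) : Submodule ℚ (MvPolynomial σ ℚ) where
  carrier := {F | ∀ m ∈ F.support, (∀ i, m i ≤ n) ∧ Finsupp.weight w m ≤ 0}
  zero_mem' := by simp
  add_mem' := by
    classical
    intro F G hF hG e he
    rcases mem_union.mp (support_add he) with h | h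
    exacts [hF e h, hG e h]
  smul_mem' := fun c F hF e he => hF e (support_smul he)

lemma Bx_mul {w : σ → ℝ} {n n' : ℕ} {F G : MvPolynomial σ ℚ} (hF : F ∈ Bx w n)
    (hG : G ∈ Bx w n') : F * G ∈ Bx w (n + n') := by
  classical
  intro e he
  obtain ⟨a, ha, b, hb, rfl⟩ := mem_add.mp (support_mul _ _ he)
  rw [map_add]
  exact ⟨fun i => add_le_add ((hF a ha).1 i) ((hG b hb).1 i), add_nonpos (hF a ha).2 (hG b hb).2⟩

lemma Bx_monomial {w : σ → ℝ} {n : ℕ} {m : σ →₀ ℕ} (h : ∀ i, m i ≤ n)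
    (h' : Finsupp.weight w m ≤ 0) (c : ℚ) : monomial m c ∈ Bx w n := fun e he => by
  have : e = m := by simpa using support_monomial_subset he
  exact this ▸ ⟨h, h'⟩

lemma Bx_pow {w : σ → ℝ} {F : MvPolynomial σ ℚ} (hF : F ∈ Bx w 1) (n : ℕ) : F ^ n ∈ Bx w n := by
  induction n with
  | zero => exact Bx_monomial (m := 0) (by simp) (by simp) 1
  | succ n ih => rw [pow_succ]; exact Bx_mul ih hF

end euler

lemma exists_box (n D : ℕ) : ∃ L : ℕ, 0 < L ∧ (L + D) ^ n ≤ 2 * L ^ n := by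
  refine ⟨2 * n * D + 1, Nat.succ_pos _, ?_⟩
  set L := 2 * n * D + 1 with hL
  have h0 : (0 : ℝ) < L := by positivity
  have h1 : ((L : ℝ) + D) ^ n ≤ (Real.exp (D / L) * L) ^ n := by
    refine pow_le_pow_left₀ (by positivity) ?_ _
    have := mul_le_mul_of_nonneg_right (Real.add_one_le_exp (D / L)) h0.le
    rwa [add_mul, div_mul_cancel₀ _ h0.ne', one_mul, add_comm] at this
  have h2 : Real.exp (D / L) ^ n ≤ 2 := by
    rw [← Real.exp_nat_mul, ← Real.le_log_iff_exp_le two_pos, ← mul_div_assoc, div_le_iff₀ h0, hL]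
    push_cast
    have := Real.log_two_gt_d9
    have h3 : (0 : ℝ) ≤ n * D := by positivity
    nlinarith
  rw [mul_pow] at h1
  exact_mod_cast h1.trans (mul_le_mul_of_nonneg_right h2 (by positivity))

/-- The formal Siegel lemma. -/
lemma siegel_formal (l : ℕ) {T J : Type} [Fintype T] [Fintype J] {D0 D1 : ℕ}
    (hD0 : D0 = 4 * (l + 2)) (hD1 : 0 < D1)
    (hD : (D1 + D0) ^ Fintype.card J ≤ 2 * D1 ^ Fintype.card J) (ι : T → ℝ)
    (hι : ∀ t, 0 ≤ ι t) {E : ℝ} (hE : 0 < E) (w : Option (T ⊕ J) → ℝ)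
    (hw : ∀ m : Option (T ⊕ J) →₀ ℕ,
      Finsupp.weight w m = m none * E - ∑ t, m (some (.inl t)) * ι t)
    (Y : Fin (D0 + 1) → MvPolynomial (Option (T ⊕ J)) ℚ) (hY : ∀ k, Y k ∈ Bx w D0) :
    ∃ z : Fin (D0 + 1) → MvPolynomial (Option (T ⊕ J)) ℚ, (∃ k, z k ≠ 0) ∧
      (∀ k, ∀ m ∈ (z k).support, (∀ j, m (some (.inr j)) < D1) ∧ E ≤ Finsupp.weight w m ∧
        Finsupp.weight w m ≤ 2 * E) ∧
      ∀ m ∈ (∑ k, z k * Y k).support, (∀ j, m (some (.inr j)) < D1 + D0) ∧
        Finsupp.weight w m ≤ -l * E := by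
  classical
  obtain ⟨L, hL0, hL⟩ := exists_box (Fintype.card T) D0
  let mo : ℕ → (T → ℕ) → (J → ℕ) → Option (T ⊕ J) →₀ ℕ := fun i v μ =>
    Finsupp.equivFunOnFinite.symm fun o =>
      o.elim (⌈(∑ t, v t * ι t) / E⌉₊ + 1 - i) (Sum.elim v μ)
  let mu : (T → Fin L) × (J → Fin D1) → Option (T ⊕ J) →₀ ℕ := fun p =>
    mo 0 (fun t => p.1 t) fun j => p.2 j
  have hmu : Function.Injective mu := fun p p' h => Prod.ext
    (_root_.funext fun t => Fin.ext (DFunLike.congr_fun h (some (Sum.inl t))))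
    (_root_.funext fun j => Fin.ext (DFunLike.congr_fun h (some (Sum.inr j))))
  let z : Fin (D0 + 1) → (Fin (D0 + 1) × (T → Fin L) × (J → Fin D1) → ℚ) →ₗ[ℚ]
      MvPolynomial (Option (T ⊕ J)) ℚ := fun k =>
    ∑ p, (monomial (mu p)).comp (LinearMap.proj (k, p))
  have hz : ∀ k c, z k c = ∑ p, monomial (mu p) (c (k, p)) := fun k c => by simp [z]
  let f : (Fin (D0 + 1) × (T → Fin L) × (J → Fin D1) → ℚ) →ₗ[ℚ]
      (Fin (l + 2) × (T → Fin (L + D0)) × (J → Fin (D1 + D0)) → ℚ) :=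
    LinearMap.pi fun p => (lcoeff ℚ (mo p.1 (fun t => p.2.1 t) fun j => p.2.2 j)).comp
      (∑ k, (LinearMap.mulRight ℚ (Y k)).comp (z k))
  obtain ⟨c, hc, hc0⟩ := Submodule.exists_mem_ne_zero_of_ne_bot
    (f.ker_ne_bot_of_finrank_lt (by
      simp only [Module.finrank_fintype_fun_eq_card, Fintype.card_prod, Fintype.card_fin,
        Fintype.card_fun]
      calc (l + 2) * ((L + D0) ^ Fintype.card T * (D1 + D0) ^ Fintype.card J)
          ≤ (l + 2) * (2 * L ^ Fintype.card T * (2 * D1 ^ Fintype.card J)) := by gcongr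
        _ = D0 * (L ^ Fintype.card T * D1 ^ Fintype.card J) := by rw [hD0]; ring
        _ < _ := by gcongr; omega))
  have hs : ∀ k, ∀ m ∈ (z k c).support, ∃ p, m = mu p := fun k m hm => by
    rw [hz] at hm
    obtain ⟨p, -, hp⟩ := mem_biUnion.mp (support_sum hm)
    exact ⟨p, by simpa using support_monomial_subset hp⟩
  have hw1 : ∀ p, E ≤ Finsupp.weight w (mu p) ∧ Finsupp.weight w (mu p) < 2 * E := fun p => by
    rw [hw]
    simp only [mu, mo, Finsupp.coe_equivFunOnFinite_symm, Option.elim, Sum.elim_inl, Nat.sub_zero]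
    have h0 : 0 ≤ ∑ t, ((p.1 t : ℕ) : ℝ) * ι t :=
      sum_nonneg fun t _ => mul_nonneg (Nat.cast_nonneg _) (hι t)
    have h1 := (div_le_iff₀ hE).mp (Nat.le_ceil ((∑ t, ((p.1 t : ℕ) : ℝ) * ι t) / E))
    have h2 := mul_lt_mul_of_pos_right (Nat.ceil_lt_add_one (div_nonneg h0 hE.le)) hE
    rw [add_mul, div_mul_cancel₀ _ hE.ne'] at h2
    push_cast
    constructor <;> linarith
  refine ⟨fun k => z k c, ?_, fun k m hm => ?_, fun m hm => ?_⟩
  · by_contra! h
    refine hc0 (funext fun p => ?_)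
    have := congrArg (coeff (mu p.2)) (h p.1)
    rw [hz, coeff_sum] at this
    simpa [coeff_monomial, hmu.eq_iff] using this
  · obtain ⟨p, rfl⟩ := hs k m hm
    exact ⟨fun j => (p.2 j).2, (hw1 p).1, (hw1 p).2.le⟩
  · obtain ⟨k, -, hk⟩ := mem_biUnion.mp (support_sum hm)
    obtain ⟨a, ha, b, hb, hab⟩ := mem_add.mp (support_mul _ _ hk)
    obtain ⟨p, rfl⟩ := hs k a ha
    have h1 : ∀ t, m (some (.inl t)) < L + D0 := fun t =>
      hab ▸ add_lt_add_of_lt_of_le (p.1 t).2 ((hY k b hb).1 _)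
    have h2 : ∀ j, m (some (.inr j)) < D1 + D0 := fun j =>
      hab ▸ add_lt_add_of_lt_of_le (p.2 j).2 ((hY k b hb).1 _)
    refine ⟨h2, ?_⟩
    by_contra! h3
    have h4 : Finsupp.weight w m < 2 * E := by
      rw [← hab, map_add]
      linarith [(hw1 p).2, (hY k b hb).2]
    rw [hw] at h3 h4
    set s := ∑ t, (m (some (.inl t)) : ℝ) * ι t
    have h0 : 0 ≤ s := sum_nonneg fun t _ => mul_nonneg (Nat.cast_nonneg _) (hι t)
    have h5 : m none < ⌈s / E⌉₊ + 2 := by
      have := (div_le_iff₀ hE).mp (Nat.le_ceil (s / E))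
      have h6 : (m none : ℝ) * E < (⌈s / E⌉₊ + 2) * E := by linarith
      exact_mod_cast lt_of_mul_lt_mul_right h6 hE.le
    have h6 : ⌈s / E⌉₊ ≤ m none + l := by
      rw [Nat.ceil_le, div_le_iff₀ hE]
      push_cast
      linarith
    have h7 := congrFun (LinearMap.mem_ker.mp hc)
      (⟨⌈s / E⌉₊ + 1 - m none, by omega⟩, fun t => ⟨_, h1 t⟩, fun j => ⟨_, h2 j⟩)
    have h8 : mo (⌈s / E⌉₊ + 1 - m none) (fun t => m (some (.inl t)))
        (fun j => m (some (.inr j))) = m := by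
      ext (_ | t | j)
      · change ⌈s / E⌉₊ + 1 - (⌈s / E⌉₊ + 1 - m none) = m none
        omega
      · rfl
      · rfl
    refine mem_support_iff.mp hm ?_
    rw [← h8, coeff_sum]
    simpa [f] using h7

theorem siegel (l : ℕ) (J : Type) [Fintype J] : ∃ D0 m : ℕ, 0 < D0 ∧
    ∀ (K : Type) [Field K] [CharZero K] (T : Type) [Fintype T] (ι : T → ℝ), (∀ t, 0 ≤ ι t) →
    ∀ E : ℝ, 0 < E → ∀ (H : K) (G : T → K) (V : J → K), H ≠ 0 → (∀ t, G t ≠ 0) →
    ∀ (s : T → ℚ) (e : T → J) (j0 : J), V j0 ≠ 0 → ∀ Z Z' : Submodule ℚ K,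
    (∀ (j : ℕ) (v : T → ℕ) (μ : J → ℕ), (∀ i, μ i ≤ m) → E ≤ j * E - ∑ t, v t * ι t →
      j * E - ∑ t, v t * ι t ≤ 2 * E → H ^ j * (∏ t, G t ^ v t) * ∏ i, V i ^ μ i ∈ Z) →
    (∀ (j : ℕ) (v : T → ℕ) (μ : J → ℕ), (∀ i, μ i ≤ m) → j * E - ∑ t, v t * ι t ≤ -l * E →
      H ^ j * (∏ t, G t ^ v t) * ∏ i, V i ^ μ i ∈ Z') →
    ∃ z : Fin (D0 + 1) → K, (∃ k, z k ≠ 0) ∧ (∀ k, z k ∈ Z) ∧
      ∑ k, z k * ((∑ t, s t • (G t * V (e t))) ^ (k : ℕ) * V j0 ^ (D0 - k)) ∈ Z' := by
  classical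
  obtain ⟨D1, hD1, hD⟩ := exists_box (Fintype.card J) (4 * (l + 2))
  refine ⟨4 * (l + 2), D1 + 4 * (l + 2), by omega,
    fun K _ _ T _ ι hι E hE H G V hH hG s e j0 hV Z Z' hZ hZ' => ?_⟩
  let w : Option (T ⊕ J) → ℝ := fun o => o.elim E (Sum.elim (fun t => -ι t) 0)
  have hw : ∀ m : Option (T ⊕ J) →₀ ℕ,
      Finsupp.weight w m = m none * E - ∑ t, m (some (.inl t)) * ι t := fun m => by
    simp [Finsupp.weight_eq_sum, Fintype.sum_option, w, sub_eq_add_neg]
  let g : Option (T ⊕ J) → K := fun o => o.elim H (Sum.elim G fun j => if V j = 0 then 1 else V j)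
  have hg : ∀ o, g o ≠ 0 := by
    rintro (_ | t | j)
    exacts [hH, hG t, by by_cases h : V j = 0 <;> simp [g, h]]
  let X0 : MvPolynomial (Option (T ⊕ J)) ℚ := ∑ t, (if V (e t) = 0 then 0 else s t) •
    (X (some (.inl t)) * X (some (.inr (e t))))
  have hX0 : X0 ∈ Bx w 1 := Submodule.sum_mem _ fun t _ => Submodule.smul_mem _ _ (by
    rw [X, X, monomial_mul]
    refine Bx_monomial (fun o => ?_) (by simp [Finsupp.weight_single, w, hι]) _
    simp only [Finsupp.add_apply, Finsupp.single_apply]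
    split_ifs with h1 h2
    · simp [← h1] at h2
    all_goals omega)
  have hX1 : (X (some (.inr j0)) : MvPolynomial (Option (T ⊕ J)) ℚ) ∈ Bx w 1 :=
    Bx_monomial (fun o => by rw [Finsupp.single_apply]; split_ifs <;> omega)
      (by simp [Finsupp.weight_single, w]) _
  obtain ⟨z, hz0, hz, hz'⟩ := siegel_formal l rfl hD1 hD ι hι hE w hw
    (fun k => X0 ^ (k : ℕ) * X (some (.inr j0)) ^ (4 * (l + 2) - k)) fun k => by
      have := Bx_mul (Bx_pow hX0 k) (Bx_pow hX1 (4 * (l + 2) - k))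
      rwa [Nat.add_sub_cancel' (Nat.lt_succ_iff.mp k.2)] at this
  obtain ⟨u, hu0, hu⟩ := exists_eul hg z
    (fun k => X0 ^ (k : ℕ) * X (some (.inr j0)) ^ (4 * (l + 2) - k)) hz0
  have hp : ∀ m : Option (T ⊕ J) →₀ ℕ, ∏ o, g o ^ m o = H ^ m none *
      (∏ t, G t ^ m (some (.inl t))) * ∏ j, V j ^ if V j = 0 then 0 else m (some (.inr j)) := by
    intro m
    rw [Fintype.prod_option, Fintype.prod_sum_type, mul_assoc]
    congr 2
    exact prod_congr rfl fun j _ => by by_cases h : V j = 0 <;> simp [g, h]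
  have he : aeval g X0 = ∑ t, s t • (G t * V (e t)) := by
    rw [map_sum]
    exact sum_congr rfl fun t _ => by by_cases h : V (e t) = 0 <;> simp [g, h]
  refine ⟨fun k => aeval g (eul u (z k)), hu0, fun k => aeval_mem g Z fun m hm => ?_, ?_⟩
  · obtain ⟨h1, h2, h3⟩ := hz k m (support_eul _ _ hm)
    rw [hw] at h2 h3
    rw [hp]
    exact hZ _ _ _ (fun j => by have := h1 j; split_ifs <;> omega) h2 h3
  · have h0 : g (some (.inr j0)) = V j0 := if_neg hV
    simp only [map_mul, map_pow, he, aeval_X, h0] at hu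
    rw [← hu]
    refine aeval_mem g Z' fun m hm => ?_
    obtain ⟨h1, h2⟩ := hz' m (support_eul _ _ hm)
    rw [hw] at h2
    rw [hp]
    exact hZ' _ _ _ (fun j => by have := h1 j; split_ifs <;> omega) h2

end Pool.Agent.Lib.MP_c9a594_an.AI
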