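import Pool.Agent.Lib.MP_c9a594_an.AI.Fils
import Pool.Agent.Lib.MP_c9a594_an.AI.Siegel

/-! Elimination of the first number, along an ultrafilter. -/

open Filter Topology Real Finset Polynomial Pool.Agent.Subspace

namespace Pool.Agent.Lib.MP_c9a594_an.AI

set_option maxHeartbeats 1000000 in
theorem key_ultra (a b : ℕ) (ha : 2 ≤ a) (hb : 2 ≤ b)
    (hab : ∀ k l : ℕ, 0 < k → 0 < l → a ^ k ≠ b ^ l) (x y : ℝ) (hx : Transcendental ℤ x)
    (F : ℤ[X][X]) (hF0 : F ≠ 0) (hF : ev2 y x F = 0)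
    (hmin : ∀ A : ℤ[X][X], A.degree < F.natDegree → ev2 y x A = 0 → A = 0)
    (J : Type) [Fintype J] (c : ℝ) (hc : 0 ≤ c) : ∃ (m : ℕ) (κ : ℝ),
    ∀ (U : Ultrafilter ℕ) (q : ℕ → ℝ), Tendsto q U atTop → ∀ W : J → ℕ → ℤ,
      (∀ j, ∀ᶠ k in U, |(W j k : ℝ)| ≤ exp (c * q k)) →
      ∀ (T T' : Type) [Fintype T] [Fintype T'] (s : T → ℤ) (s' : T' → ℤ) (e : T → J) (e' : T' → J)
      (j0 j0' : J) (i : T → ℕ → ℕ) (i' : T' → ℕ → ℕ) (B K : ℝ), 0 ≤ K →
      (∀ᶠ k in U, W j0 k ≠ 0) → (∀ᶠ k in U, W j0' k ≠ 0) →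
      (∀ t, ∀ᶠ k in U, (i t k : ℝ) ≤ B * q k) → (∀ t, ∀ᶠ k in U, (i' t k : ℝ) ≤ B * q k) →
      (∀ᶠ k in U, |W j0 k * x - ∑ t, (s t * W (e t) k : ℝ) / a ^ i t k| ≤ exp (-K * q k)) →
      (∀ᶠ k in U, |W j0' k * y - ∑ t, (s' t * W (e' t) k : ℝ) / b ^ i' t k| ≤ exp (-K * q k)) →
      ∀ᶠ k in U, ∃ Q : ℤ[X], Q ≠ 0 ∧ Q.natDegree ≤ m ∧
        (∀ n, |(Q.coeff n : ℝ)| ≤ exp (κ * q k)) ∧ |aeval y Q| ≤ exp ((κ - K) * q k) := by
  classical
  have ha0 : a ≠ 0 := by omega
  have hb0 : b ≠ 0 := by omega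
  obtain ⟨d, hd⟩ : ∃ d, F.natDegree = d := ⟨_, rfl⟩
  obtain ⟨d', hd'⟩ : ∃ d', ∀ n, (F.coeff n).natDegree ≤ d' :=
    ⟨F.support.sup fun n => (F.coeff n).natDegree, fun n => by
      by_cases h : n ∈ F.support
      · exact le_sup (f := fun n => (F.coeff n).natDegree) h
      · simp [notMem_support_iff.mp h]⟩
  obtain ⟨D0, m0, hD0, hS⟩ := siegel (2 * d) J
  obtain ⟨N, hN⟩ : ∃ N, N = d + D0 := ⟨_, rfl⟩
  have hcard : Fintype.card (Fin d ⊕ Fin D0) = N := by simp [hN]
  obtain ⟨E, hE, hsep⟩ := sep_ultra a b ha hb hab (J → Fin (N + N * (m0 + d + d') + 1))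
    (Fintype.card J * (N + N * (m0 + d + d') : ℕ) * c)
  obtain ⟨κ1, hκ1⟩ : ∃ κ1 : ℝ, κ1 = 2 * E * log a + Fintype.card J * (m0 * c) := ⟨_, rfl⟩
  have hla := log_natCast_nonneg a
  have hκ10 : 0 ≤ κ1 := by rw [hκ1]; positivity
  have hNc : 0 ≤ N * c := by positivity
  have hdc : 0 ≤ d' * c := by positivity
  refine ⟨N * d', E + N * (κ1 + N * c + d' * c) + 1,
    fun U q hq W hW T T' _ _ s s' e e' j0 j0' i i' B K hK h0 h0' hi hi' hX hY => ?_⟩
  have hlim : ∀ j : ℕ → ℕ, (∀ᶠ k in U, (j k : ℝ) ≤ B * q k) →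
      ∃ ι : ℝ, 0 ≤ ι ∧ Tendsto (fun k => (j k : ℝ) / q k) U (𝓝 ι) := fun j h => by
    obtain ⟨ι, -, h1⟩ := exists_lim (U := U) (x := fun k => (j k : ℝ) / q k) (A := B) (by
      filter_upwards [h, hq.eventually_gt_atTop 0] with k h1 h2
      rwa [abs_of_nonneg (by positivity), div_le_iff₀ h2])
    exact ⟨ι, ge_of_tendsto h1 ((hq.eventually_gt_atTop 0).mono fun k hk => by positivity), h1⟩
  choose ι hι0 hι using fun t => hlim _ (hi t)
  choose ι' hι0' hι' using fun t => hlim _ (hi' t)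
  let Wb : J → UP U := fun j => germ U fun k => W j k
  let γ : T → ℕ → ℤ × ℤ := fun t k => (-i t k, 0)
  let γ' : T' → ℕ → ℤ × ℤ := fun t k => (0, -i' t k)
  let γH : ℕ → ℤ × ℤ := fun k => (⌊E * q k⌋₊, 0)
  have hγ : ∀ t, Rate U q (γ t) (-ι t) 0 := fun t =>
    ⟨by simpa [γ, neg_div] using (hι t).neg, by simp [γ]⟩
  have hγ' : ∀ t, Rate U q (γ' t) 0 (-ι' t) := fun t =>
    ⟨by simp [γ'], by simpa [γ', neg_div] using (hι' t).neg⟩
  have hγH : Rate U q γH E 0 :=
    ⟨by simpa [γH, Function.comp_def] using (tendsto_nat_floor_mul_div_atTop hE.le).comp hq,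
      by simp [γH]⟩
  have hWs : ∀ j, Wb j ∈ (smK hq).F 0 c := fun j =>
    (germ_small (hq := hq)).mpr (smR_of_le (by simpa [cR] using hW j))
  have hWc : ∀ σ j, Wb j ∈ (cls q ha0 hb0 Wb σ).F 1 0 := fun σ j => by
    have := cls_term (a := a) (b := b) (W := Wb) (σ := σ) (Rate.zero (q := q)) (by simp) j
    rwa [gm_zero, one_mul] at this
  have hne : ∀ {j}, (∀ᶠ k in U, W j k ≠ 0) → Wb j ≠ 0 := fun h h1 => by
    obtain ⟨k, hk⟩ := (h.and (germ_eq_zero.mp h1)).exists
    exact hk.1 (by exact_mod_cast hk.2)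
  have hδ := hne h0
  have hδ' := hne h0'
  let Xs : ℕ → ℚ := fun k => ∑ t, (s t * W (e t) k : ℚ) / a ^ i t k
  let Ys : ℕ → ℚ := fun k => ∑ t, (s' t * W (e' t) k : ℚ) / b ^ i' t k
  have hXs : ∑ t, (s t : ℚ) • (gm U a b (γ t) * Wb (e t)) = germ U Xs := by
    simp only [gm, Wb, ← map_mul, germ_smul, germ_sum]
    exact congrArg _ (funext fun k => sum_congr rfl fun t _ => by simp [γ]; ring)
  have hYs : ∑ t, (s' t : ℚ) • (gm U a b (γ' t) * Wb (e' t)) = germ U Ys := by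
    simp only [gm, Wb, ← map_mul, germ_smul, germ_sum]
    exact congrArg _ (funext fun k => sum_congr rfl fun t _ => by simp [γ']; ring)
  have hXc : germ U Xs ∈ (cls q ha0 hb0 Wb 1).F 1 0 := hXs ▸ Submodule.sum_mem _ fun t _ =>
    Submodule.smul_mem _ _ (cls_term (hγ t) (by simpa using hι0 t) _)
  have hYc : ∀ σ, germ U Ys ∈ (cls q ha0 hb0 Wb σ).F 1 0 := fun σ => hYs ▸
    Submodule.sum_mem _ fun t _ => Submodule.smul_mem _ _ (cls_term (hγ' t) (by simp) _)
  have hYm : germ U Ys ∈ (smK hq).F 0 c := hYs ▸ Submodule.sum_mem (small hq c) fun t _ =>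
    Submodule.smul_mem _ _ ((smK hq).mono le_rfl (by
      have := mul_nonneg (hι0' t) (log_natCast_nonneg b)
      linarith) ((smK hq).mul (gm_small ha0 hb0 (hγ' t)) (hWs _)))
  have hmon : ∀ (j : ℕ) (v : T → ℕ), gm U a b γH ^ j * ∏ t, gm U a b (γ t) ^ v t =
      gm U a b (j • γH + ∑ t, v t • γ t) ∧
      Rate U q (j • γH + ∑ t, v t • γ t) (j * E - ∑ t, v t * ι t) 0 := fun j v =>
    ⟨by simp only [gm_add ha0 hb0, gm_sum ha0 hb0, gm_nsmul ha0 hb0], by
      simpa [sub_eq_add_neg] using (hγH.nsmul j).add (Rate.sum univ fun t => (hγ t).nsmul (v t))⟩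
  obtain ⟨z, ⟨k0, hk0⟩, hz, hΦ⟩ := hS (UP U) T ι hι0 E hE (gm U a b γH) (fun t => gm U a b (γ t))
    Wb (gm_ne_zero ha0 hb0 _) (fun t => gm_ne_zero ha0 hb0 _) (fun t => s t) e j0 hδ
    ((clsS q a b Wb (-1) m0 0 ⊓ clsS q a b Wb 1 m0 (2 * E)) ⊓ (small hq κ1 ⊓
      Submodule.span ℚ {z : UP U | ∃ f : ℕ → ℤ, z = germ U fun k => f k}))
    (clsS q a b Wb 1 m0 (-(2 * d : ℕ) * E))
    (fun j v μ h1 h2 h3 => by
      obtain ⟨e1, e2⟩ := hmon j v
      rw [e1]
      refine ⟨⟨Submodule.subset_span ⟨_, _, _, μ, h1, by linarith, e2, rfl⟩,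
        Submodule.subset_span ⟨_, _, _, μ, h1, by linarith, e2, rfl⟩⟩, ?_,
        Submodule.subset_span ?_⟩
      · have := (smK hq).mul (gm_small ha0 hb0 e2) ((smK hq).prod univ (m := 0)
          (r := fun _ => m0 * c) fun l _ => (smK hq).mono (by simp)
            (mul_le_mul_of_nonneg_right (by exact_mod_cast h1 l) hc) ((smK hq).pow (hWs l) (μ l)))
        refine (smK hq).mono (m' := 0) (by simp) ?_ this
        rw [hκ1, sum_const, card_univ, nsmul_eq_mul]
        nlinarith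
      · obtain ⟨f, hf⟩ := gm_int (hq := hq) (a := a) (b := b) e2 (by linarith)
          fun k => by simp [γH, γ, Prod.snd_sum]
        refine ⟨fun k => f k * ∏ l, W l k ^ μ l, ?_⟩
        simp only [hf, Wb, ← map_pow, ← map_prod, ← map_mul]
        exact congrArg _ (funext fun k => by simp))
    (fun j v μ h1 h2 => by
      obtain ⟨e1, e2⟩ := hmon j v
      rw [e1]
      exact Submodule.subset_span ⟨_, _, _, μ, h1, by linarith, e2, rfl⟩)
  obtain ⟨d0, f, hd0, hf⟩ := exists_int_family fun l => (hz l).2.2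
  rw [hXs] at hΦ
  let ρQ : (ℕ → ℤ) →+* (ℕ → ℚ) := (Int.castRingHom ℚ).compLeft ℕ
  have hρ : ∀ l, ((germ U).comp ρQ) (f l) = d0 • z l := fun l => (hf l).symm
  let xs : ℕ → ℚ := Xs / fun k => (W j0 k : ℚ)
  let ys : ℕ → ℚ := Ys / fun k => (W j0' k : ℚ)
  have hxs : germ U xs = germ U Xs / Wb j0 := rfl
  have hys : germ U ys = germ U Ys / Wb j0' := rfl
  have hnx : (cR xs, fun _ => x) ∈ near hq (-K) := near_div hK h0 (by simpa [Xs] using hX)
  have hny : (cR ys, fun _ => y) ∈ near hq (-K) := near_div hK h0' (by simpa [Ys] using hY)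
  let Ψ : (ℕ → ℤ)[X] :=
    (syl d D0 ((pol f).map C) (F.map (mapRingHom (Int.castRingHom (ℕ → ℤ))))).det
  have hΨ : Ψ ∈ (smP hq).F (N * d') (N * κ1) := by
    have := (smP hq).det (M := syl d D0 ((pol f).map C)
      (F.map (mapRingHom (Int.castRingHom (ℕ → ℤ))))) (m := d') (α := fun _ => κ1)
      (γ := fun _ => 0) fun r l => syl_mem (A := fun _ => (smP hq).F d' (κ1 + 0))
        (fun _ n => by
          rw [map_pol]
          refine coeff_pol_mem (A := (smP hq).F d' (κ1 + 0)) (fun l => ⟨by simp, fun n => ?_⟩) n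
          rw [coeff_C]
          split_ifs
          · have h1 : germ U (ρQ (f l)) ∈ small hq κ1 :=
              (hρ l).symm ▸ Submodule.smul_mem _ d0 (hz l).2.1
            rw [add_zero]
            convert germ_small.mp h1 using 1
            ext k
            simp [zR, cR, ρQ]
          · simp)
        (fun _ n => by
          rw [coeff_map]
          refine ⟨natDegree_map_le.trans (hd' n), fun n' => ?_⟩
          rw [coe_mapRingHom, coeff_map, eq_intCast, map_intCast]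
          exact (smR hq).mono le_rfl (by linarith) ((smR hq).int _)) r l
    simpa [← hN] using this
  let P : (UP U)[X] := pol fun l => d0 • z l
  let G : (UP U)[X] := F.map (aeval (germ U ys)).toRingHom
  have hτ : germ U (Ψ.eval₂ ρQ ys) = (syl d D0 P G).det := by
    rw [hom_eval₂, ← coe_eval₂RingHom, map_det_syl, Polynomial.map_map, Polynomial.map_map,
      map_pol]
    congr 2
    · exact congrArg pol (funext fun l => by simpa using hρ l)
    · exact congrArg (fun φ => F.map φ) (by ext <;> simp)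
  have hPd : P.natDegree ≤ D0 := natDegree_pol _
  have hGd : (C (Wb j0' ^ d') * G).natDegree ≤ d :=
    (natDegree_C_mul_le _ _).trans (natDegree_map_le.trans hd.le)
  have hGc : ∀ (Φ : Fil (UP U)) {m r}, germ U Ys ∈ Φ.F m r → Wb j0' ∈ Φ.F m r → ∀ n,
      (C (Wb j0' ^ d') * G).coeff n ∈ Φ.F (d' * m) (d' * r) := fun Φ _ _ h1 h2 n => by
    rw [coeff_C_mul, coeff_map, hys]
    exact Φ.homog hδ' h1 h2 (hd' n)
  obtain ⟨c0, hsp⟩ := det_split hPd hGd hD0 (germ U xs) (Wb j0 ^ N)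
  have hL : Wb j0 ^ N * (syl d D0 P (C (Wb j0' ^ d') * G)).det ∈
      (cls q ha0 hb0 Wb (-1)).F (N + N * (m0 + d + d')) 0 := by
    have := (cls q ha0 hb0 Wb (-1)).mul ((cls q ha0 hb0 Wb (-1)).pow (hWc _ j0) N)
      ((cls q ha0 hb0 Wb (-1)).det (M := syl d D0 P (C (Wb j0' ^ d') * G)) (m := m0 + d + d')
        (α := fun _ => 0) (γ := fun _ => 0) (syl_mem
          (A := fun _ => (cls q ha0 hb0 Wb (-1)).F (m0 + d + d') (0 + 0))
          (fun _ => coeff_pol_mem fun l => Fil.mono _ (m := m0) (r := 0) (by omega) (by simp)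
            (Submodule.smul_mem _ d0 (hz l).1.1))
          fun _ n => Fil.mono _ (by omega) (by simp) (hGc _ (hYc _) (hWc _ _) n)))
    simpa [← hN] using this
  have hR : ((syl d D0 P (C (Wb j0' ^ d') * G)).updateCol c0 (Sum.elim (fun l : Fin d =>
      Wb j0 ^ N * (germ U xs ^ (l : ℕ) * P.eval (germ U xs))) 0)).det ∈
      (cls q ha0 hb0 Wb 1).F (N + N * (m0 + d + d')) (-E) := by
    have := (cls q ha0 hb0 Wb 1).det_update (M := syl d D0 P (C (Wb j0' ^ d') * G))
      (m := m0 + d + d') (α := Sum.elim (fun _ => 2 * E) fun _ => 0) (syl_mem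
        (A := fun r => (cls q ha0 hb0 Wb 1).F (m0 + d + d') (Sum.elim (fun _ => 2 * E) (fun _ => 0) r))
        (fun _ => coeff_pol_mem fun l => Fil.mono _ (m := m0) (r := 2 * E) (by omega) (by simp)
          (Submodule.smul_mem _ d0 (hz l).1.2))
        fun _ n => Fil.mono _ (by omega) (by simp) (hGc _ (hYc _) (hWc _ _) n)) c0
      (v := Sum.elim (fun l : Fin d =>
        Wb j0 ^ N * (germ U xs ^ (l : ℕ) * P.eval (germ U xs))) 0)
      (β := -(2 * d : ℕ) * E - 2 * E) (by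
        rintro (l | l)
        · have e1 : Wb j0 ^ N * (germ U xs ^ (l : ℕ) * P.eval (germ U xs)) =
              germ U Xs ^ (l : ℕ) * Wb j0 ^ (d - l) * d0 • ∑ n : Fin (D0 + 1),
                z n * (germ U Xs ^ (n : ℕ) * Wb j0 ^ (D0 - n)) := by
            rw [hN, pow_add, mul_mul_mul_comm, hxs, pow_mul_div_pow hδ _ l.2.le, eval_pol,
              mul_sum, smul_sum]
            congr 1
            refine sum_congr rfl fun n _ => ?_
            rw [mul_left_comm, pow_mul_div_pow hδ _ (Nat.lt_succ_iff.mp n.2), smul_mul_assoc]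
          simp only [Sum.elim_inl, e1]
          refine Fil.mono _ ?_ ?_ (Fil.mul _ (Fil.mul _ (Fil.pow _ hXc l) (Fil.pow _ (hWc 1 j0) _))
            (m' := m0) (Submodule.smul_mem _ d0 hΦ))
          · have := l.2
            omega
          · simp
        · exact zero_mem _)
    refine Fil.mono _ (by rw [hcard]; omega) ?_ this
    simp only [Fintype.sum_sum_type, Sum.elim_inl, Sum.elim_inr, sum_const, card_univ,
      Fintype.card_fin, nsmul_eq_mul]
    push_cast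
    linarith
  have hF2 : G.eval (germ U xs) ∈ (smK hq).F 0 (-K) := by
    have h1 := near_ev2 hnx hny F
    have h2 : ev2 (fun _ : ℕ => y) (fun _ => x) F = 0 := by
      have := hom_ev2 (Pi.constRingHom ℕ ℝ) y x F
      rw [hF, map_zero] at this
      exact this.symm
    rw [h2, sub_zero, ← hom_ev2, ← germ_small, hom_ev2] at h1
    rw [eval_map]
    exact h1
  have hS2 := (smK hq).det_update (M := syl d D0 P (C (Wb j0' ^ d') * G)) (m := 0)
    (α := fun _ => κ1 + N * c + d' * c) (syl_mem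
      (A := fun _ => (smK hq).F 0 (κ1 + N * c + d' * c))
      (fun _ => coeff_pol_mem fun l => Fil.mono _ (m := 0) (r := κ1) le_rfl (by linarith)
        (Submodule.smul_mem _ d0 (hz l).2.1))
      fun _ n => Fil.mono _ (by simp) (by linarith) (hGc _ hYm (hWs _) n)) c0
    (v := Sum.elim 0 fun l : Fin D0 => Wb j0 ^ N *
      (germ U xs ^ (l : ℕ) * (C (Wb j0' ^ d') * G).eval (germ U xs))) (β := -K) (by
      rintro (l | l)
      · exact zero_mem _
      · rw [Sum.elim_inr, eval_C_mul]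
        have h1 : germ U xs ∈ (smK hq).F 0 0 := (germ_small (hq := hq)).mpr hnx.1
        refine Fil.mono _ (by simp) ?_ (Fil.mul _ (Fil.pow _ (hWs j0) N) (Fil.mul _
          (Fil.pow _ h1 l) (Fil.mul _ (Fil.pow _ (hWs j0') d') hF2)))
        linarith)
  rw [sum_const, card_univ, hcard, nsmul_eq_mul] at hS2
  have h1 := hsep U q hq (fun μ k => ∏ j, W j k ^ (μ j : ℕ)) (fun μ => by
      filter_upwards [eventually_all.mpr hW, hq.eventually_ge_atTop 0] with k h1 h2
      rw [Int.cast_prod, abs_prod]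
      refine (prod_le_prod (fun _ _ => abs_nonneg _)
        (g := fun _ => exp ((N + N * (m0 + d + d') : ℕ) * (c * q k))) fun j _ => ?_).trans_eq ?_
      · rw [Int.cast_pow, abs_pow, exp_nat_mul]
        exact (pow_le_pow_left₀ (abs_nonneg _) (h1 j) _).trans
          (pow_le_pow_right₀ (one_le_exp (by positivity)) (Nat.lt_succ_iff.mp (μ j).2))
      · rw [prod_const, card_univ, ← exp_nat_mul]
        ring_nf)
    (K - N * (κ1 + N * c + d' * c)) _ _ (cls_le_uw W _ _ _ hL) (cls_le_uw W _ _ _ hR) (by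
      rw [hsp, add_sub_cancel_left, neg_sub, sub_eq_add_neg]
      exact hS2)
  have h2 : germ U (Ψ.eval₂ ρQ ys) ∈ small hq (E + N * (κ1 + N * c + d' * c) - K) := by
    have := (smK hq).mul (Fil.mul _ (Fil.pow _ (Fil.pow _ (inv_small (hq := hq) h0') d') D0)
      (Fil.pow _ (inv_small (hq := hq) h0) N)) (m' := 0) h1
    rw [det_syl_C_mul, ← hτ] at this
    have e1 : ((Wb j0')⁻¹ ^ d') ^ D0 * (Wb j0)⁻¹ ^ N * (Wb j0 ^ N * ((Wb j0' ^ d') ^ D0 *
        germ U (Ψ.eval₂ ρQ ys))) = germ U (Ψ.eval₂ ρQ ys) := by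
      simp only [inv_pow]
      field_simp
    rw [← e1]
    exact (smK hq).mono (m' := 0) (by simp) (by linarith) this
  have h3 : Ψ.eval₂ zR (fun _ => y) ∈ (smR hq).F 0 (E + N * (κ1 + N * c + d' * c) - K) := by
    rw [germ_small, hom_eval₂] at h2
    have h4 : cR.comp ρQ = zR := by ext f k; simp [cR, ρQ, zR]
    have h5 : N * κ1 ≤ N * (κ1 + N * c + d' * c) := by gcongr; linarith
    simpa [h4] using sub_mem h2 ((smR hq).mono le_rfl (by linarith) (near_eval hny hΨ))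
  have h4 : ∀ᶠ k in U, f k0 k ≠ 0 := by
    have h5 : ¬ ∀ᶠ k in U, (f k0 k : ℚ) = 0 := by
      rw [← germ_eq_zero, ← hf]
      exact smul_ne_zero hd0 hk0
    exact (Ultrafilter.eventually_not.mpr h5).mono fun k hk => by exact_mod_cast hk
  filter_upwards [h3 1 one_pos, h4, eventually_all.mpr fun n : Fin (N * d' + 1) => hΨ.2 n 1 one_pos,
    hq.eventually_ge_atTop 0] with k h5 h6 h7 h8
  refine ⟨Ψ.map (Pi.evalRingHom _ k), ?_, natDegree_map_le.trans hΨ.1, fun n => ?_, ?_⟩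
  · rw [← coe_mapRingHom, map_det_syl, Polynomial.map_map, Polynomial.map_map, map_pol,
      show (mapRingHom (Pi.evalRingHom (fun _ : ℕ => ℤ) k)).comp
        (mapRingHom (Int.castRingHom (ℕ → ℤ))) = RingHom.id _ by ext <;> simp, Polynomial.map_id]
    refine det_syl_ne_zero (natDegree_pol _) hd.le (ev2 y x) hF0 hF (fun h => ?_) (hd ▸ hmin)
    refine h6 (eq_zero_of_sum (v := fun l => f l k) (transcendental_iff.mp hx _ ?_) k0)
    simpa [pol, ev2_C, ev2_X] using h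
  · rw [coeff_map]
    by_cases hn : n < N * d' + 1
    · refine (h7 ⟨n, hn⟩).trans (exp_le_exp.mpr (mul_le_mul_of_nonneg_right ?_ h8))
      have h5 : N * κ1 ≤ N * (κ1 + N * c + d' * c) := by gcongr; linarith
      linarith
    · rw [coeff_eq_zero_of_natDegree_lt (by have := hΨ.1; omega)]
      simp [(exp_pos _).le]
  · have e1 := hom_eval₂ Ψ zR (Pi.evalRingHom (fun _ : ℕ => ℝ) k) fun _ => y
    rw [aeval_def, eval₂_map]
    convert h5 using 2
    · exact e1.symm
    · ring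

end Pool.Agent.Lib.MP_c9a594_an.AI
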